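import Pool.Agent.TH93.MM.Mem
import Pool.Agent.H620R2.Gauge.Comb
import Pool.Agent.H620R2.Gauge.Blk

/-! The blocks of the test language. -/

set_option autoImplicit false

namespace Pool.Agent.TH93.MM

open Pool.Agent.NPC Pool.Agent.H620R2.Gauge Finset H568R2 Pool.Agent.H676

open Classical in
/-- the positions of the strings `x w` with `|w| = m` -/
noncomputable def blkM (N m : ℕ) (x : List Bool) : Finset (Fin N) :=
  univ.filter (fun i => ∃ j < 2 ^ m, str i = x ++ bitsOf m j)

theorem blkM_card_filter (N m : ℕ) (x : List Bool) (hN : 2 ^ (x.length + m + 1) ≤ N + 1)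
    (P : List Bool → Prop) [DecidablePred P] :
    ((blkM N m x).filter (fun i : Fin N => P (str i))).card =
      ((Finset.range (2 ^ m)).filter (fun j => P (x ++ bitsOf m j))).card := by
  symm
  have hlen : ∀ j, (x ++ bitsOf m j).length = x.length + m := by
    intro j
    rw [List.length_append, length_bitsOf]
  have hlt : ∀ j, idx (x ++ bitsOf m j) < N := by
    intro j
    have h1 := idx_lt (x ++ bitsOf m j)
    rw [hlen] at h1
    omega
  refine Finset.card_bij (fun j _ => (⟨idx (x ++ bitsOf m j), hlt j⟩ : Fin N)) ?_ ?_ ?_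
  · intro j hj
    rw [Finset.mem_filter, Finset.mem_range] at hj
    rw [Finset.mem_filter, blkM, Finset.mem_filter]
    refine ⟨⟨Finset.mem_univ _, j, hj.1, str_idx _⟩, ?_⟩
    show P (str (idx _))
    rw [str_idx]
    exact hj.2
  · intro j hj j' hj' h
    rw [Finset.mem_filter, Finset.mem_range] at hj hj'
    have h1 : idx (x ++ bitsOf m j) = idx (x ++ bitsOf m j') := by simpa using h
    have h2 : x ++ bitsOf m j = x ++ bitsOf m j' := by
      rw [← str_idx (x ++ bitsOf m j), h1, str_idx]
    exact bitsOf_inj hj.1 hj'.1 (List.append_cancel_left h2)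
  · intro i hi
    rw [Finset.mem_filter, blkM, Finset.mem_filter] at hi
    obtain ⟨⟨_, j, hj, hji⟩, hP⟩ := hi
    refine ⟨j, ?_, ?_⟩
    · rw [Finset.mem_filter, Finset.mem_range, ← hji]
      exact ⟨hj, hP⟩
    · apply Fin.ext
      show idx (x ++ bitsOf m j) = i
      rw [← hji, idx_str]

theorem blkM_card (N m : ℕ) (x : List Bool) (hN : 2 ^ (x.length + m + 1) ≤ N + 1) :
    (blkM N m x).card = 2 ^ m := by
  have h := blkM_card_filter N m x hN (fun _ => True)
  simpa using h

theorem blkM_par (N m : ℕ) (A : Oracle) (x : List Bool) (hN : 2 ^ (x.length + m + 1) ≤ N + 1) :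
    par (blkM N m x) (pre N A) = true ↔
      Odd ((Finset.range (2 ^ m)).filter (fun j => A (x ++ bitsOf m j) = true)).card := by
  have h := blkM_card_filter N m x hN (fun y => A y = true)
  unfold par pre
  rw [decide_eq_true_eq, ← h]

theorem blkM_disj (N m : ℕ) (x x' : List Bool) (hl : x.length = x'.length) (hne : x ≠ x') :
    Disjoint (blkM N m x) (blkM N m x') := by
  rw [Finset.disjoint_left]
  intro i hi hi'
  rw [blkM, Finset.mem_filter] at hi hi'
  obtain ⟨_, j, _, hj⟩ := hi
  obtain ⟨_, j', _, hj'⟩ := hi'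
  apply hne
  rw [hj] at hj'
  exact (List.append_inj hj' hl).1

end Pool.Agent.TH93.MM
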