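import Pool.Agent.TH93.MM.Blk
import Pool.Agent.TH93.GL.Low

/-!
# Alternating algorithms with advice and the test language: the probability
-/

set_option autoImplicit false

namespace Pool.Agent.TH93.MM

open Pool.Agent.NPC Pool.Agent.H620R2.Gauge Finset H568R2 Pool.Agent.H676
open Pool.Agent.TH93.GL MeasureTheory

/-- the input of the alternating algorithm -/
def inp (T : ℕ) (x a : List Bool) : List Bool :=
  pairBits (List.replicate T true) (pairBits x a)

theorem length_inp (T : ℕ) (x a : List Bool) :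
    (inp T x a).length = 2 * T + 1 + (2 * x.length + 1 + a.length) := by
  unfold inp
  rw [Pool.Agent.H620R2.Gauge.length_pairBits, Pool.Agent.H620R2.Gauge.length_pairBits,
    List.length_replicate]

/-- The event: with some advice the algorithm is right on all inputs of length `n`. -/
def EvA (M : Alg) (k n e m : ℕ) : Set Oracle :=
  {A | ∃ V : List Bool → List Bool, (∀ x, M.out A x = some (V x)) ∧
    ∃ a : List Bool, a.length ≤ 2 ^ n / 2 ∧ ∀ x : List Bool, x.length = n →
      (Odd ((Finset.range (2 ^ m)).filter (fun j => A (x ++ bitsOf m j) = true)).card ↔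
        Quant (2 ^ e) V k true (inp (2 ^ e) x a))}

theorem one_sub_pow_le {q : ℝ} (h0 : 0 < q) (h1 : q ≤ 1) {w s : ℕ} (hs : (w : ℝ) ≤ s * q) :
    (1 - q) ^ s ≤ (1 / 2) ^ w := by
  have h2 : (1 - q) ^ s ≤ Real.exp (-(w : ℝ)) := by
    calc (1 - q) ^ s ≤ Real.exp (-q) ^ s :=
          pow_le_pow_left₀ (by linarith) (Real.one_sub_le_exp_neg q) s
      _ = Real.exp (-(s * q)) := by rw [← Real.exp_nat_mul]; ring_nf
      _ ≤ _ := Real.exp_le_exp.2 (by linarith)
  refine h2.trans ?_
  have h3 : Real.exp (-(w : ℝ)) = Real.exp (-1) ^ w := by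
    rw [← Real.exp_nat_mul]
    ring_nf
  rw [h3]
  refine pow_le_pow_left₀ (Real.exp_pos _).le ?_ w
  rw [Real.exp_neg, one_div]
  apply inv_anti₀ (by norm_num)
  have := Real.add_one_le_exp (1 : ℝ)
  linarith

/-- the depth of the trees -/
noncomputable def Pt (M : Alg) (k : ℕ) : Polynomial ℕ :=
  M.p.comp (Polynomial.C (5 + 3 * k) * Polynomial.X) + Polynomial.C (5 + 3 * k) * Polynomial.X + 2 +
    Polynomial.X + Polynomial.C k

/-- the size of the blocks -/
noncomputable def PR (M : Alg) (k : ℕ) : Polynomial ℕ :=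
  (Polynomial.X * Pt M k + 1) * ((24 * Pt M k) ^ k * (Polynomial.X * Pt M k + 1 + 2 * Polynomial.X))

open Classical in
theorem evA_prefix (M : Alg) (k n e m : ℕ) (hm : (PR M k).eval (2 ^ (e + n)) ≤ 2 ^ m) :
    ∃ (N : ℕ) (P : (Fin N → Bool) → Prop), (∀ A ∈ EvA M k n e m, P (pre N A)) ∧
      Ex unif (fun a : Fin N → Bool => if P a then (1 : ℝ) else 0) ≤
        4 * (1 / 2) ^ (2 ^ n / 2) := by
  obtain ⟨W, hW⟩ : ∃ W, W = 2 ^ (e + n) := ⟨_, rfl⟩
  rw [← hW] at hm
  have hTW : 2 ^ e ≤ W := by rw [hW]; exact Nat.pow_le_pow_right (by norm_num) (by omega)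
  have hnW : 2 ^ n ≤ W := by rw [hW]; exact Nat.pow_le_pow_right (by norm_num) (by omega)
  have hn2 : n < 2 ^ n := Nat.lt_two_pow_self
  have hT1 : 1 ≤ 2 ^ e := Nat.one_le_two_pow
  -- parameters
  set t : ℕ := (Pt M k).eval W with ht
  have htE : t = M.p.eval ((5 + 3 * k) * W) + (5 + 3 * k) * W + 2 + W + k := by
    rw [ht, Pt]
    simp only [Polynomial.eval_add, Polynomial.eval_comp, Polynomial.eval_mul,
      Polynomial.eval_C, Polynomial.eval_X, Polynomial.eval_ofNat]
  have ht1 : 1 ≤ t := by omega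
  have htR : (1 : ℝ) ≤ (t : ℝ) := by exact_mod_cast ht1
  set q : ℝ := 1 / (24 * t) with hq
  have hq0 : 0 < q := by positivity
  have hq1 : q ≤ 1 / 3 := by
    rw [hq, div_le_div_iff₀ (by positivity) (by norm_num)]
    linarith
  set ℓ : ℕ := 2 * 2 ^ e + 1 + (2 * n + 1 + 2 ^ n / 2) with hℓ
  set r : ℕ := 2 ^ n * t with hr
  set w : ℕ := r + 1 + n + W with hw
  set s : ℕ := (24 * t) ^ k * w with hs
  have hL : ℓ + k * (2 * 2 ^ e + 1) ≤ (5 + 3 * k) * W := by
    have h1 : k * (2 * 2 ^ e + 1) ≤ k * (3 * W) := Nat.mul_le_mul_left _ (by omega)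
    have h2 : (5 + 3 * k) * W = 5 * W + k * (3 * W) := by ring
    omega
  have hrs : (r + 1) * s ≤ 2 ^ m := by
    refine le_trans ?_ hm
    have h1 : (PR M k).eval W = (W * t + 1) * ((24 * t) ^ k * (W * t + 1 + 2 * W)) := by
      rw [PR]
      simp only [Polynomial.eval_add, Polynomial.eval_mul, Polynomial.eval_pow,
        Polynomial.eval_X, Polynomial.eval_ofNat, Polynomial.eval_one, ← ht]
    rw [h1, hs]
    have h2 : r ≤ W * t := Nat.mul_le_mul_right _ hnW
    refine Nat.mul_le_mul (by omega) (Nat.mul_le_mul_left _ ?_)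
    omega
  obtain ⟨qb, hqb⟩ := Alg.out_local M
  obtain ⟨N, hN1, hN2⟩ : ∃ N, 2 ^ (n + m + 1) ≤ N ∧
      2 ^ (qb.eval ((5 + 3 * k) * W) + 1) ≤ N :=
    ⟨2 ^ (n + m + 1) + 2 ^ (qb.eval ((5 + 3 * k) * W) + 1), Nat.le_add_right _ _,
      Nat.le_add_left _ _⟩
  refine ⟨N, fun z => ∃ h ∈ advs (2 ^ n / 2), ∀ j ∈ Finset.range (2 ^ n),
    QF (2 ^ e) (leaf M N) k true (inp (2 ^ e) (bitsOf n j) h) z =
      par (blkM N m (bitsOf n j)) z, ?_, ?_⟩
  · rintro A ⟨V, hM, a, ha, hx⟩
    have hV : ∀ y : List Bool, y.length ≤ (5 + 3 * k) * W →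
        (V y = [true] ↔ leaf M N y (pre N A) = true) := by
      intro y hy
      obtain ⟨Q, _, hQl, hQA⟩ := hqb A y
      have h1 : M.out (orc N (pre N A)) y = M.out A y := by
        apply hQA
        intro q' hq'
        apply orc_pre
        have h2 := idx_lt q'
        have h3 : q'.length ≤ qb.eval ((5 + 3 * k) * W) := (hQl q' hq').trans (eval_mono _ hy)
        have h4 : 2 ^ (q'.length + 1) ≤ 2 ^ (qb.eval ((5 + 3 * k) * W) + 1) :=
          Nat.pow_le_pow_right (by norm_num) (by omega)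
        omega
      unfold leaf
      rw [h1, hM y, decide_eq_true_eq, Option.some.injEq]
    refine ⟨a, mem_advs ha, fun j _ => ?_⟩
    have hlen : (bitsOf n j).length = n := length_bitsOf n j
    have hN' : 2 ^ ((bitsOf n j).length + m + 1) ≤ N + 1 := by
      rw [hlen]
      exact hN1.trans (Nat.le_succ N)
    have h2 := blkM_par N m A (bitsOf n j) hN'
    have h3 := quant_iff (m := 2 ^ e) ((5 + 3 * k) * W) hV k true (inp (2 ^ e) (bitsOf n j) a)
      (by rw [length_inp, hlen]; omega)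
    have h4 : QF (2 ^ e) (leaf M N) k true (inp (2 ^ e) (bitsOf n j) a) (pre N A) = true ↔
        par (blkM N m (bitsOf n j)) (pre N A) = true := by
      rw [h2, hx _ hlen, ← h3]
    cases hb : par (blkM N m (bitsOf n j)) (pre N A) with
    | true => exact h4.2 hb
    | false =>
      rw [← Bool.not_eq_true, h4, hb]
      simp
  · have h1 := comb (I := Fin N) ht1 hq0.le hq1 (2 ^ e) (leaf M N) k ℓ (by
      intro y hy
      refine (dtr_out M N y).mono ?_
      calc M.p.eval y.length ≤ M.p.eval ((5 + 3 * k) * W) := eval_mono _ (by omega)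
        _ ≤ t := by omega) (Finset.range (2 ^ n)) (fun j => blkM N m (bitsOf n j)) (by
      intro j hj j' hj' hne
      rw [Finset.mem_range] at hj hj'
      apply blkM_disj
      · rw [length_bitsOf, length_bitsOf]
      · intro h
        exact hne (bitsOf_inj hj hj' h)) (advs (2 ^ n / 2))
      (fun j h => inp (2 ^ e) (bitsOf n j) h) (by
      intro j _ h hh
      rw [length_inp, length_bitsOf]
      unfold advs at hh
      rw [Finset.mem_biUnion] at hh
      obtain ⟨c, hc, hh⟩ := hh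
      obtain ⟨i, _, rfl⟩ := Finset.mem_image.1 hh
      rw [length_bitsOf]
      have := Finset.mem_range.1 hc
      omega) r s (by rw [Finset.card_range]) (by
      intro j _
      rw [blkM_card N m _ (by rw [length_bitsOf]; exact hN1.trans (Nat.le_succ N))]
      exact hrs)
    refine (Ex_mono unif_nonneg (fun a => ?_)).trans (h1.trans ?_)
    · by_cases h : ∃ h ∈ advs (2 ^ n / 2), ∀ j ∈ Finset.range (2 ^ n),
        QF (2 ^ e) (leaf M N) k true (inp (2 ^ e) (bitsOf n j) h) a =
          par (blkM N m (bitsOf n j)) a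
      · rw [if_pos h, if_pos h]
      · rw [if_neg h, if_neg h]
    rw [Finset.card_range]
    have hqt : 12 * (t : ℝ) * q = 1 / 2 := by
      rw [hq]; field_simp; norm_num
    rw [hqt]
    have hqk : 0 < q ^ k := pow_pos hq0 k
    have hqk1 : q ^ k ≤ 1 := pow_le_one₀ hq0.le (by linarith)
    -- the first term
    have t1 : (k : ℝ) * 2 ^ (ℓ + k * (2 * 2 ^ e + 1) + 2) * (1 / 2) ^ (t + 1) ≤
        (1 / 2) ^ (2 ^ n / 2) := by
      have h2 : (k : ℝ) ≤ 2 ^ k := by exact_mod_cast (Nat.lt_two_pow_self (n := k)).le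
      calc (k : ℝ) * 2 ^ (ℓ + k * (2 * 2 ^ e + 1) + 2) * (1 / 2) ^ (t + 1) ≤
            2 ^ k * 2 ^ (ℓ + k * (2 * 2 ^ e + 1) + 2) *
              (1 / 2) ^ (k + (ℓ + k * (2 * 2 ^ e + 1) + 2) + 2 ^ n / 2) := by
            apply mul_le_mul (mul_le_mul_of_nonneg_right h2 (by positivity)) _ (by positivity)
              (by positivity)
            exact pow_le_pow_of_le_one (by norm_num) (by norm_num) (by omega)
        _ = (2 ^ k * (1 / 2) ^ k) * (2 ^ (ℓ + k * (2 * 2 ^ e + 1) + 2) *
              (1 / 2) ^ (ℓ + k * (2 * 2 ^ e + 1) + 2)) * (1 / 2) ^ (2 ^ n / 2) := by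
            rw [pow_add (1 / 2 : ℝ), pow_add (1 / 2 : ℝ)]
            ring
        _ = _ := by
            rw [← mul_pow, ← mul_pow]
            norm_num
    -- the second term
    have t2 : ((2 ^ n : ℕ) : ℝ) * (((r : ℝ) + 1) * (1 - q ^ k) ^ s) ≤ (1 / 2) ^ (2 ^ n / 2) := by
      have h2 : (1 - q ^ k) ^ s ≤ (1 / 2) ^ w := by
        refine one_sub_pow_le hqk hqk1 ?_
        rw [hs, hq]
        push_cast
        have h3 : ((24 : ℝ) * t) ^ k * w * (1 / (24 * t)) ^ k = w := by
          rw [one_div, inv_pow]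
          have : ((24 : ℝ) * t) ^ k ≠ 0 := by positivity
          field_simp
        rw [h3]
      have h3 : ((r : ℝ) + 1) ≤ 2 ^ (r + 1) := by
        exact_mod_cast (Nat.lt_two_pow_self (n := r + 1)).le
      calc ((2 ^ n : ℕ) : ℝ) * (((r : ℝ) + 1) * (1 - q ^ k) ^ s) ≤
            2 ^ n * (2 ^ (r + 1) * (1 / 2) ^ (n + (r + 1) + 2 ^ n / 2)) := by
            push_cast
            apply mul_le_mul_of_nonneg_left _ (by positivity)
            apply mul_le_mul h3 _ (pow_nonneg (by linarith) _) (by positivity)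
            exact h2.trans (pow_le_pow_of_le_one (by norm_num) (by norm_num) (by omega))
        _ = (2 ^ n * (1 / 2) ^ n) * (2 ^ (r + 1) * (1 / 2) ^ (r + 1)) *
              (1 / 2) ^ (2 ^ n / 2) := by
            rw [pow_add (1 / 2 : ℝ), pow_add (1 / 2 : ℝ)]
            ring
        _ = _ := by
            rw [← mul_pow, ← mul_pow]
            norm_num
    -- the third term
    have t3 : ((advs (2 ^ n / 2)).card : ℝ) * (1 / 2) ^ 2 ^ n ≤ 2 * (1 / 2) ^ (2 ^ n / 2) := by
      have h2 : ((advs (2 ^ n / 2)).card : ℝ) ≤ 2 ^ (2 ^ n / 2 + 1) := by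
        exact_mod_cast (Nat.le_succ _).trans (card_advs1 (2 ^ n / 2))
      calc ((advs (2 ^ n / 2)).card : ℝ) * (1 / 2) ^ 2 ^ n ≤
            2 ^ (2 ^ n / 2 + 1) * (1 / 2) ^ (2 ^ n / 2 + 2 ^ n / 2) := by
            apply mul_le_mul h2 _ (by positivity) (by positivity)
            exact pow_le_pow_of_le_one (by norm_num) (by norm_num) (by omega)
        _ = 2 * (2 ^ (2 ^ n / 2) * (1 / 2) ^ (2 ^ n / 2)) * (1 / 2) ^ (2 ^ n / 2) := by
            rw [pow_add (1 / 2 : ℝ), pow_succ]
            ring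
        _ = _ := by
            rw [← mul_pow]
            norm_num
    linarith

end Pool.Agent.TH93.MM
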