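import Pool.Agent.TH93.MM.Blk
import Pool.Agent.TH93.MM.EvA

/-!
# Nondeterministic algorithms with advice and the test language: the probability
-/

set_option autoImplicit false

namespace Pool.Agent.TH93.MM

open Pool.Agent.NPC Pool.Agent.H620R2.Gauge Finset H568R2 Pool.Agent.H676
open Pool.Agent.TH93.GL Pool.Agent.TH678.ETH MeasureTheory

open Classical in
theorem combN {I : Type*} [Fintype I] [DecidableEq I] {t d : ℕ} (ht : 1 ≤ t) {q : ℝ} (h0 : 0 ≤ q)
    (h1 : q ≤ 1 / 3) {ι η : Type*} (X : Finset ι) (B : ι → Finset I)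
    (hB : ∀ x ∈ X, ∀ x' ∈ X, x ≠ x' → Disjoint (B x) (B x'))
    (H : Finset η) (f : ι → η → (I → Bool) → Bool)
    (hf : ∀ x ∈ X, ∀ h ∈ H, Cert t true (f x h))
    (r s : ℕ) (hr : X.card * d ≤ r) (hs : ∀ x ∈ X, (r + 1) * s ≤ (B x).card) :
    Ex unif (fun a : I → Bool =>
      if ∃ h ∈ H, ∀ x ∈ X, f x h a = par (B x) a then (1 : ℝ) else 0) ≤
      X.card * (H.card * (12 * t * q) ^ (d + 1)) +
        X.card * ((r + 1) * (1 - q) ^ s) + H.card * (1 / 2) ^ X.card := by
  have hq1 : q ≤ 1 := by linarith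
  rw [← Ex_ov (q := q)]
  have hpt : ∀ ρ : Restr I, Ex unif (fun a : I → Bool =>
      if ∃ h ∈ H, ∀ x ∈ X, f x h (ov ρ a) = par (B x) (ov ρ a)
        then (1 : ℝ) else 0) ≤
      (∑ x ∈ X, ∑ h ∈ H, (if ¬ DTr d (rs (f x h) ρ) then (1 : ℝ) else 0) +
        ∑ x ∈ X, (if ((B x).filter (fun i => ρ i = none)).card ≤ r then (1 : ℝ) else 0)) +
        H.card * (1 / 2) ^ X.card := by
    intro ρ
    have hle1 : Ex unif (fun a : I → Bool =>
      if ∃ h ∈ H, ∀ x ∈ X, f x h (ov ρ a) = par (B x) (ov ρ a)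
        then (1 : ℝ) else 0) ≤ 1 := by
      calc _ ≤ Ex unif (fun _ : I → Bool => (1 : ℝ)) := by
            apply Ex_mono unif_nonneg
            intro a
            split_ifs <;> norm_num
        _ = 1 := Ex_const unif_sum 1
    have hs0 : 0 ≤ ∑ x ∈ X, (if ((B x).filter (fun i => ρ i = none)).card ≤ r
        then (1 : ℝ) else 0) := Finset.sum_nonneg fun x _ => by split_ifs <;> norm_num
    have hs1 : 0 ≤ ∑ x ∈ X, ∑ h ∈ H, (if ¬ DTr d (rs (f x h) ρ) then (1 : ℝ) else 0) :=
      Finset.sum_nonneg fun x _ => Finset.sum_nonneg fun h _ => by split_ifs <;> norm_num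
    have hh0 : 0 ≤ (H.card : ℝ) * (1 / 2) ^ X.card := by positivity
    by_cases hG : ∀ x ∈ X, ∀ h ∈ H, DTr d (rs (f x h) ρ)
    · by_cases hst : ∃ x ∈ X, ((B x).filter (fun i => ρ i = none)).card ≤ r
      · obtain ⟨x, hx, hxr⟩ := hst
        have h2 : (1 : ℝ) ≤ ∑ x ∈ X, (if ((B x).filter (fun i => ρ i = none)).card ≤ r
            then (1 : ℝ) else 0) := by
          refine le_trans ?_ (Finset.single_le_sum (f := fun x =>
            if ((B x).filter (fun i => ρ i = none)).card ≤ r then (1 : ℝ) else 0)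
            (fun x _ => by positivity) hx)
          rw [if_pos hxr]
        linarith
      · push Not at hst
        have h4 : Ex unif (fun a : I → Bool =>
            if ∃ h ∈ H, ∀ x ∈ X, f x h (ov ρ a) = par (B x) (ov ρ a)
              then (1 : ℝ) else 0) ≤ Ex unif (fun a : I → Bool => ∑ h ∈ H,
            if ∀ x ∈ X, f x h (ov ρ a) = par (B x) (ov ρ a)
              then (1 : ℝ) else 0) := by
          apply Ex_mono unif_nonneg
          intro a
          split_ifs with h
          · obtain ⟨h, hh, hx⟩ := h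
            refine le_trans ?_ (Finset.single_le_sum (f := fun h =>
              if ∀ x ∈ X, f x h (ov ρ a) = par (B x) (ov ρ a)
              then (1 : ℝ) else 0) (fun x _ => by positivity) hh)
            rw [if_pos hx]
          · exact Finset.sum_nonneg fun x _ => by split_ifs <;> norm_num
        have h5 : ∀ h ∈ H, Ex unif (fun a : I → Bool =>
            if ∀ x ∈ X, f x h (ov ρ a) = par (B x) (ov ρ a)
              then (1 : ℝ) else 0) ≤ (1 / 2) ^ X.card := by
          intro h hh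
          refine xor_bound ρ X B hB (fun x => f x h) d ?_ ?_
          · intro x hx
            exact hG x hx h hh
          · intro x hx
            exact lt_of_le_of_lt hr (hst x hx)
        rw [Ex_sum] at h4
        have h6 := Finset.sum_le_sum h5
        rw [Finset.sum_const, nsmul_eq_mul] at h6
        linarith
    · push Not at hG
      obtain ⟨x, hx, h, hh, hn⟩ := hG
      have h2 : (1 : ℝ) ≤ ∑ x ∈ X, ∑ h ∈ H, (if ¬ DTr d (rs (f x h) ρ) then (1 : ℝ) else 0) := by
        refine le_trans ?_ (Finset.single_le_sum (f := fun x =>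
          ∑ h ∈ H, (if ¬ DTr d (rs (f x h) ρ) then (1 : ℝ) else 0))
          (fun x _ => Finset.sum_nonneg fun h _ => by positivity) hx)
        refine le_trans ?_ (Finset.single_le_sum (f := fun h =>
          (if ¬ DTr d (rs (f x h) ρ) then (1 : ℝ) else 0)) (fun h _ => by positivity) hh)
        rw [if_pos hn]
      linarith
  refine (Ex_mono (wq_nonneg h0 hq1) hpt).trans ?_
  rw [Ex_add, Ex_add, Ex_sum, Ex_sum, Ex_const (wq_sum q)]
  have h7 : ∀ x ∈ X, Ex (wq q) (fun ρ : Restr I =>
      ∑ h ∈ H, (if ¬ DTr d (rs (f x h) ρ) then (1 : ℝ) else 0)) ≤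
      H.card * (12 * t * q) ^ (d + 1) := by
    intro x hx
    rw [Ex_sum]
    refine (Finset.sum_le_sum fun h hh => switch ht h0 h1 (hf x hx h hh)).trans ?_
    rw [Finset.sum_const, nsmul_eq_mul]
  have h8 : ∀ x ∈ X, Ex (wq q) (fun ρ : Restr I =>
      if ((B x).filter (fun i => ρ i = none)).card ≤ r then (1 : ℝ) else 0) ≤
      (r + 1) * (1 - q) ^ s := fun x hx => few_stars h0 hq1 (B x) r s (hs x hx)
  have h9 := Finset.sum_le_sum h8
  have h10 := Finset.sum_le_sum h7
  rw [Finset.sum_const, nsmul_eq_mul] at h9 h10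
  linarith

/-- the input of the nondeterministic algorithm -/
def inpN (T : ℕ) (w x a : List Bool) : List Bool :=
  pairBits (List.replicate T true) (pairBits w (pairBits x a))

/-- The event: with some advice the algorithm is right on all inputs of length `n`. -/
def EvN (M : Alg) (n T m : ℕ) : Set Oracle :=
  {A | ∃ a : List Bool, a.length ≤ 2 ^ n / 2 ∧ ∀ x : List Bool, x.length = n →
      (Odd ((Finset.range (2 ^ m)).filter (fun j => A (x ++ bitsOf m j) = true)).card ↔
        ∃ w : List Bool, M.run (upTo T A) (inpN T w x a) T [] = some [true])}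

/-- the size of the blocks -/
noncomputable def PN (p : Polynomial ℕ) : Polynomial ℕ :=
  (p + 1) * (24 * ((2 * Polynomial.X ^ 2 + 1) * (2 * Polynomial.X ^ 2 + 1 + 2 * Polynomial.X)))

open Classical in
theorem evN_prefix (M : Alg) (p : Polynomial ℕ) (n e m : ℕ)
    (hm : 2 ^ e * (PN p).eval (2 ^ n) ≤ 2 ^ m) :
    ∃ (N : ℕ) (P : (Fin N → Bool) → Prop),
      (∀ A ∈ EvN M n (2 ^ e * p.eval (2 ^ n)) m, P (pre N A)) ∧
      Ex unif (fun a : Fin N → Bool => if P a then (1 : ℝ) else 0) ≤
        4 * (1 / 2) ^ (2 ^ n / 2) := by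
  obtain ⟨T, hT⟩ : ∃ T, T = 2 ^ e * p.eval (2 ^ n) := ⟨_, rfl⟩
  rw [← hT]
  obtain ⟨W, hW⟩ : ∃ W, W = 2 ^ n := ⟨_, rfl⟩
  have hn2 : n < 2 ^ n := Nat.lt_two_pow_self
  rw [← hW] at hn2
  -- parameters
  obtain ⟨t, ht⟩ : ∃ t, t = T + 1 := ⟨_, rfl⟩
  have ht1 : 1 ≤ t := by omega
  have htR : (1 : ℝ) ≤ (t : ℝ) := by exact_mod_cast ht1
  set q : ℝ := 1 / (24 * t) with hq
  have hq0 : 0 < q := by positivity
  have hq1 : q ≤ 1 / 3 := by
    rw [hq, div_le_div_iff₀ (by positivity) (by norm_num)]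
    linarith
  obtain ⟨d, hd⟩ : ∃ d, d = 2 * W := ⟨_, rfl⟩
  obtain ⟨r, hr⟩ : ∃ r, r = W * d := ⟨_, rfl⟩
  obtain ⟨w, hw⟩ : ∃ w, w = r + 1 + n + W := ⟨_, rfl⟩
  obtain ⟨s, hs⟩ : ∃ s, s = 24 * t * w := ⟨_, rfl⟩
  have hrs : (r + 1) * s ≤ 2 ^ m := by
    refine le_trans ?_ hm
    have h1 : (PN p).eval (2 ^ n) = (p.eval W + 1) * (24 * ((2 * W ^ 2 + 1) *
        (2 * W ^ 2 + 1 + 2 * W))) := by
      rw [PN, ← hW]
      simp only [Polynomial.eval_add, Polynomial.eval_mul, Polynomial.eval_pow,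
        Polynomial.eval_X, Polynomial.eval_ofNat, Polynomial.eval_one]
    have h2 : t ≤ 2 ^ e * (p.eval W + 1) := by
      rw [ht, hT, ← hW, Nat.mul_add, Nat.mul_one]
      have : 1 ≤ 2 ^ e := Nat.one_le_two_pow
      omega
    have h3 : r = 2 * W ^ 2 := by rw [hr, hd]; ring
    have h4 : w ≤ 2 * W ^ 2 + 1 + 2 * W := by omega
    rw [h1, hs, h3]
    calc (2 * W ^ 2 + 1) * (24 * t * w) ≤
          (2 * W ^ 2 + 1) * (24 * (2 ^ e * (p.eval W + 1)) * (2 * W ^ 2 + 1 + 2 * W)) := by
          apply Nat.mul_le_mul_left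
          exact Nat.mul_le_mul (Nat.mul_le_mul_left _ h2) h4
      _ = _ := by ring
  obtain ⟨N, hN1, hN2⟩ : ∃ N, 2 ^ (n + m + 1) ≤ N ∧ 2 ^ (T + 1) ≤ N :=
    ⟨2 ^ (n + m + 1) + 2 ^ (T + 1), Nat.le_add_right _ _, Nat.le_add_left _ _⟩
  refine ⟨N, fun z => ∃ h ∈ advs (2 ^ n / 2), ∀ j ∈ Finset.range (2 ^ n),
    decide (∃ w : List Bool, M.run (upTo T (orc N z)) (inpN T w (bitsOf n j) h) T [] =
      some [true]) = par (blkM N m (bitsOf n j)) z, ?_, ?_⟩
  · rintro A ⟨a, ha, hx⟩
    have hup : upTo T (orc N (pre N A)) = upTo T A := by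
      funext q'
      unfold upTo
      by_cases hq' : q'.length ≤ T
      · rw [orc_pre]
        have h2 := idx_lt q'
        have h4 : 2 ^ (q'.length + 1) ≤ 2 ^ (T + 1) :=
          Nat.pow_le_pow_right (by norm_num) (by omega)
        omega
      · simp [hq']
    refine ⟨a, mem_advs ha, fun j _ => ?_⟩
    have hlen : (bitsOf n j).length = n := length_bitsOf n j
    have hN' : 2 ^ ((bitsOf n j).length + m + 1) ≤ N + 1 := by
      rw [hlen]
      exact hN1.trans (Nat.le_succ N)
    have h2 := blkM_par N m A (bitsOf n j) hN'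
    rw [hx _ hlen] at h2
    rw [hup]
    cases hb : par (blkM N m (bitsOf n j)) (pre N A) with
    | true => exact decide_eq_true (h2.1 hb)
    | false =>
      rw [decide_eq_false_iff_not, ← h2, hb]
      simp
  · have h1 := combN (I := Fin N) ht1 hq0.le hq1 (d := d) (Finset.range (2 ^ n))
      (fun j => blkM N m (bitsOf n j)) (by
      intro j hj j' hj' hne
      rw [Finset.mem_range] at hj hj'
      apply blkM_disj
      · rw [length_bitsOf, length_bitsOf]
      · intro h
        exact hne (bitsOf_inj hj hj' h)) (advs (2 ^ n / 2))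
      (fun j h z => decide (∃ w : List Bool, M.run (upTo T (orc N z))
        (inpN T w (bitsOf n j) h) T [] = some [true])) (by
      intro j _ h _ z hz
      rw [decide_eq_true_eq] at hz
      obtain ⟨w', hw'⟩ := hz
      have h5 := (dtr_upTo M N T (inpN T w' (bitsOf n j) h) T []).cert true
      obtain ⟨S, hS1, hS2⟩ := h5 z (decide_eq_true hw')
      refine ⟨S, by omega, fun y hy => decide_eq_true ⟨w', ?_⟩⟩
      exact of_decide_eq_true (hS2 y hy)) r s (by rw [Finset.card_range, hr, hW]) (by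
      intro j _
      rw [blkM_card N m _ (by rw [length_bitsOf]; exact hN1.trans (Nat.le_succ N))]
      exact hrs)
    refine (Ex_mono unif_nonneg (fun a => ?_)).trans (h1.trans ?_)
    · split_ifs <;> first | exact le_rfl | norm_num | contradiction
    rw [Finset.card_range, ← hW]
    have hqt : 12 * (t : ℝ) * q = 1 / 2 := by
      rw [hq]; field_simp; norm_num
    rw [hqt]
    have hWn : (W : ℝ) = 2 ^ n := by rw [hW]; push_cast; rfl
    have hH : ((advs (W / 2)).card : ℝ) ≤ 2 ^ (W / 2 + 1) := by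
      exact_mod_cast (Nat.le_succ _).trans (card_advs1 (W / 2))
    -- the first term
    have t1 : (W : ℝ) * (((advs (W / 2)).card : ℝ) * (1 / 2) ^ (d + 1)) ≤
        (1 / 2) ^ (W / 2) := by
      calc (W : ℝ) * (((advs (W / 2)).card : ℝ) * (1 / 2) ^ (d + 1)) ≤
            2 ^ n * (2 ^ (W / 2 + 1) * (1 / 2) ^ (n + (W / 2 + 1) + W / 2)) := by
            rw [hWn]
            apply mul_le_mul_of_nonneg_left _ (by positivity)
            apply mul_le_mul hH _ (by positivity) (by positivity)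
            exact pow_le_pow_of_le_one (by norm_num) (by norm_num) (by omega)
        _ = (2 ^ n * (1 / 2) ^ n) * (2 ^ (W / 2 + 1) * (1 / 2) ^ (W / 2 + 1)) *
              (1 / 2) ^ (W / 2) := by
            rw [pow_add (1 / 2 : ℝ), pow_add (1 / 2 : ℝ)]
            ring
        _ = _ := by
            rw [← mul_pow, ← mul_pow]
            norm_num
    -- the second term
    have t2 : (W : ℝ) * (((r : ℝ) + 1) * (1 - q) ^ s) ≤ (1 / 2) ^ (W / 2) := by
      have h2 : (1 - q) ^ s ≤ (1 / 2) ^ w := by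
        refine one_sub_pow_le hq0 (by linarith) ?_
        rw [hs, hq]
        push_cast
        have h3 : (24 : ℝ) * t * w * (1 / (24 * t)) = w := by
          have : ((24 : ℝ) * t) ≠ 0 := by positivity
          field_simp
        rw [h3]
      have h3 : ((r : ℝ) + 1) ≤ 2 ^ (r + 1) := by
        exact_mod_cast (Nat.lt_two_pow_self (n := r + 1)).le
      calc (W : ℝ) * (((r : ℝ) + 1) * (1 - q) ^ s) ≤
            2 ^ n * (2 ^ (r + 1) * (1 / 2) ^ (n + (r + 1) + W / 2)) := by
            rw [hWn]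
            apply mul_le_mul_of_nonneg_left _ (by positivity)
            apply mul_le_mul h3 _ (pow_nonneg (by linarith) _) (by positivity)
            exact h2.trans (pow_le_pow_of_le_one (by norm_num) (by norm_num) (by omega))
        _ = (2 ^ n * (1 / 2) ^ n) * (2 ^ (r + 1) * (1 / 2) ^ (r + 1)) *
              (1 / 2) ^ (W / 2) := by
            rw [pow_add (1 / 2 : ℝ), pow_add (1 / 2 : ℝ)]
            ring
        _ = _ := by
            rw [← mul_pow, ← mul_pow]
            norm_num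
    -- the third term
    have t3 : ((advs (W / 2)).card : ℝ) * (1 / 2) ^ W ≤ 2 * (1 / 2) ^ (W / 2) := by
      calc ((advs (W / 2)).card : ℝ) * (1 / 2) ^ W ≤
            2 ^ (W / 2 + 1) * (1 / 2) ^ (W / 2 + W / 2) := by
            apply mul_le_mul hH _ (by positivity) (by positivity)
            exact pow_le_pow_of_le_one (by norm_num) (by norm_num) (by omega)
        _ = 2 * (2 ^ (W / 2) * (1 / 2) ^ (W / 2)) * (1 / 2) ^ (W / 2) := by
            rw [pow_add (1 / 2 : ℝ), pow_succ]
            ring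
        _ = _ := by
            rw [← mul_pow]
            norm_num
    linarith

end Pool.Agent.TH93.MM
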