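import Pool.Agent.TH93.GL.Defs

/-!
# Classes with a bounded number of memory bits, relative to an oracle

(Continues `Pool.Agent.H620R2.Gauge.Defs` and `Pool.Agent.TH93.GL.Defs`.)
-/

set_option autoImplicit false

namespace Pool.Agent.TH93.MM

open Pool.Agent.NPC Pool.Agent.H620R2.Gauge Pool.Agent.TH678.ETH

/-- An algorithm works in steps on the input `z`; between the steps it keeps only its memory, at the
beginning the empty string. If the memory contains `s` and `F ⟨s, z⟩` is `false :: s'` then `s'` is
the next content of the memory; if it is `true :: y` then the algorithm stops with output `y`.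
`Reach F z s` says that `s` occurs as content of the memory. -/
inductive Reach (F : List Bool → List Bool) (z : List Bool) : List Bool → Prop
  | start : Reach F z []
  | step {s s' : List Bool} : Reach F z s → F (pairBits s z) = false :: s' → Reach F z s'

/-- `g(n)` bits of memory: some algorithm decides `L` and keeps at most `g(n)` bits between its
steps. Every step is computed in polynomial time relative to `A` from the memory, the input
`x` and the string of `τ(n)` ones (`n` is the length of `x`). The number of steps is not bounded. -/
def InMem (τ g : ℕ → ℕ) (A : Oracle) (L : Set (List Bool)) : Prop :=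
  ∃ F : List Bool → List Bool, IsFP A F ∧ ∀ x : List Bool,
    (∀ s, Reach F (pairBits (List.replicate (τ x.length) true) x) s → s.length ≤ g x.length) ∧
    ∃ s y, Reach F (pairBits (List.replicate (τ x.length) true) x) s ∧
      F (pairBits s (pairBits (List.replicate (τ x.length) true) x)) = true :: y ∧
      (x ∈ L ↔ y = [true])

/-- The exponent `c (h(n) + n + 1)`. -/
def ex (h : ℕ → ℕ) (c n : ℕ) : ℕ := c * (h n + n + 1)

/-- Deterministic time `2 ^ O(h(n) + n)` relative to `A`, as polynomial time on inputs padded with
`2 ^ (c (h(n) + n + 1))` ones. -/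
def InTimeO (h : ℕ → ℕ) (A : Oracle) (L : Set (List Bool)) : Prop :=
  ∃ (c : ℕ) (U : List Bool → List Bool), IsFP A U ∧ ∀ x : List Bool,
    x ∈ L ↔ U (pairBits (List.replicate (2 ^ ex h c x.length) true) x) = [true]

/-- Alternating time `2 ^ O(h(n) + n)` relative to `A`, with a constant number of alternations and
with `2 ^ n / 2` bits of advice: `k` alternating quantifiers over the strings of length at most
`2 ^ (c (h(n) + n + 1))`, in front of a property decidable in polynomial time relative to `A` from
these strings, the padding, the input and the advice. -/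
def InAltO (h : ℕ → ℕ) (A : Oracle) (L : Set (List Bool)) : Prop :=
  ∃ (c k : ℕ) (V : List Bool → List Bool) (a : ℕ → List Bool), IsFP A V ∧
    (∀ n, (a n).length ≤ 2 ^ n / 2) ∧ ∀ x : List Bool,
    x ∈ L ↔ Quant (2 ^ ex h c x.length) V k true
      (pairBits (List.replicate (2 ^ ex h c x.length) true) (pairBits x (a x.length)))

/-- The number `2 ^ h(n) * p(2 ^ n)`. -/
def rd (h : ℕ → ℕ) (p : Polynomial ℕ) (n : ℕ) : ℕ := 2 ^ h n * p.eval (2 ^ n)

/-- Deterministic time `2 ^ h(n) * 2 ^ O(n)` relative to `A`: on inputs `x` of length `n` the
algorithm works `T = 2 ^ h(n) * p(2 ^ n)` rounds; it gets the string of `T` ones and `x`, and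
questions with more than `T` bits are answered by `false`. -/
def InTimeX (h : ℕ → ℕ) (A : Oracle) (L : Set (List Bool)) : Prop :=
  ∃ (M : Alg) (p : Polynomial ℕ), ∀ x : List Bool, x ∈ L ↔
    M.run (upTo (rd h p x.length) A) (pairBits (List.replicate (rd h p x.length) true) x)
      (rd h p x.length) [] = some [true]

/-- Nondeterministic time `2 ^ h(n) * 2 ^ O(n)` relative to `A`, with `2 ^ n / 2` bits of advice:
the algorithm also gets a certificate `w` (of any length) and the advice `a n`, and it works
`T = 2 ^ h(n) * p(2 ^ n)` rounds. -/
def InNTimeX (h : ℕ → ℕ) (A : Oracle) (L : Set (List Bool)) : Prop :=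
  ∃ (M : Alg) (p : Polynomial ℕ) (a : ℕ → List Bool), (∀ n, (a n).length ≤ 2 ^ n / 2) ∧
    ∀ x : List Bool, x ∈ L ↔ ∃ w : List Bool,
      M.run (upTo (rd h p x.length) A) (pairBits (List.replicate (rd h p x.length) true)
        (pairBits w (pairBits x (a x.length)))) (rd h p x.length) [] = some [true]

end Pool.Agent.TH93.MM
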