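import Pool.Agent.TH93.MM.Defs
import Pool.Agent.TH93.GL.Inst
import Pool.Agent.TH93.GL.Up
import Pool.Agent.H622R2.Exp.A4

/-!
# Few bits of memory: deterministic simulation
-/

set_option autoImplicit false

namespace Pool.Agent.TH93.MM

open Pool.Agent.NPC Pool.Agent.H620R2.Gauge Pool.Agent.H622R2 Pool.Agent.TH93.GL
open Pool.Agent.H622R2.Exp

theorem len_poly {f : List Bool → List Bool} (hf : Poly f) :
    ∃ q : Polynomial ℕ, ∀ y, (f y).length ≤ q.eval y.length := by
  obtain ⟨q, hq⟩ := hf.sz_le
  refine ⟨q.comp (Polynomial.C 4 * Polynomial.X + Polynomial.C 1), fun y => ?_⟩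
  have h1 := length_lt_sz (f y)
  have h2 := hq y
  have h3 := sz_listBool_le y
  rw [Polynomial.eval_comp]
  refine h1.le.trans (h2.trans (eval_mono _ ?_))
  simpa using h3

/-- the defining property of `InMem` for one input string -/
def Dec (F : List Bool → List Bool) (m : ℕ) (z : List Bool) (P : Prop) : Prop :=
  (∀ s, Reach F z s → s.length ≤ m) ∧
    ∃ s y, Reach F z s ∧ F (pairBits s z) = true :: y ∧ (P ↔ y = [true])

/-- truncation of the values -/
theorem trunc_dec {F : List Bool → List Bool} {m K : ℕ} {z : List Bool} {P : Prop}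
    (h : Dec F m z P) (hK : m + 3 ≤ K) {F' : List Bool → List Bool}
    (hF' : ∀ s, F' (pairBits s z) = (F (pairBits s z)).take K) : Dec F' m z P := by
  obtain ⟨h1, s, y, h2, h3, h4⟩ := h
  have e1 : ∀ s, Reach F' z s → Reach F z s := by
    intro s hs
    induction hs with
    | start => exact Reach.start
    | step _ h ih =>
      rename_i s s' _
      rw [hF'] at h
      cases hF : F (pairBits s z) with
      | nil => rw [hF] at h; simp at h
      | cons b t =>
        obtain ⟨K', rfl⟩ : ∃ K', K = K' + 1 := ⟨K - 1, by omega⟩
        rw [hF, List.take_succ_cons, List.cons.injEq] at h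
        obtain ⟨rfl, h5⟩ := h
        have h6 := Reach.step ih hF
        have h7 := h1 t h6
        rw [List.take_of_length_le (by omega)] at h5
        rw [← h5]
        exact h6
  have e2 : ∀ s, Reach F z s → Reach F' z s := by
    intro s hs
    induction hs with
    | start => exact Reach.start
    | step hr h ih =>
      rename_i s s'
      refine Reach.step ih ?_
      have h7 := h1 s' (Reach.step hr h)
      rw [hF', h, List.take_of_length_le (by rw [List.length_cons]; omega)]
  refine ⟨fun s hs => h1 s (e1 s hs), s, y.take (K - 1), e2 s h2, ?_, ?_⟩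
  · rw [hF', h3]
    obtain ⟨K', rfl⟩ : ∃ K', K = K' + 1 := ⟨K - 1, by omega⟩
    rw [List.take_succ_cons, Nat.add_sub_cancel]
  · rw [h4]
    obtain ⟨K', rfl⟩ : ∃ K', K = K' + 3 := ⟨K - 3, by omega⟩
    rw [show K' + 3 - 1 = K' + 1 + 1 by omega]
    rcases y with _ | ⟨a, _ | ⟨b, y⟩⟩ <;> simp

/-- the configurations: the flag and the memory, or the flag and the output -/
def cf (F : List Bool → List Bool) (z : List Bool) : ℕ → List Bool
  | 0 => [false]
  | i + 1 => if (cf F z i).head? = some false then F (pairBits (cf F z i).tail z) else cf F z i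

theorem cf_reach {F : List Bool → List Bool} {z : List Bool} : ∀ (i : ℕ) (s : List Bool),
    cf F z i = false :: s → Reach F z s := by
  intro i
  induction i with
  | zero =>
    intro s h
    rw [cf, List.cons.injEq] at h
    rw [← h.2]
    exact Reach.start
  | succ i ih =>
    intro s h
    rw [cf] at h
    by_cases hh : (cf F z i).head? = some false
    · rw [if_pos hh] at h
      cases hc : cf F z i with
      | nil => rw [hc] at hh; simp at hh
      | cons b t =>
        rw [hc] at hh h
        simp only [List.head?_cons, Option.some.injEq] at hh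
        subst hh
        exact Reach.step (ih t hc) h
    · rw [if_neg hh] at h
      rw [h] at hh
      simp at hh

theorem reach_cf {F : List Bool → List Bool} {z s : List Bool} (h : Reach F z s) :
    ∃ i, cf F z i = false :: s := by
  induction h with
  | start => exact ⟨0, rfl⟩
  | step _ h ih =>
    obtain ⟨i, hi⟩ := ih
    refine ⟨i + 1, ?_⟩
    rw [cf, hi, if_pos (by simp)]
    exact h

theorem cf_stop {F : List Bool → List Bool} {z : List Bool} {i : ℕ}
    (h : (cf F z i).head? ≠ some false) : ∀ j, cf F z (i + j) = cf F z i := by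
  intro j
  induction j with
  | zero => rfl
  | succ j ih =>
    rw [← Nat.add_assoc, cf, ih, if_neg h]

theorem cf_shift {F : List Bool → List Bool} {z : List Bool} {i j : ℕ}
    (h : cf F z i = cf F z j) : ∀ t, cf F z (i + t) = cf F z (j + t) := by
  intro t
  induction t with
  | zero => exact h
  | succ t ih => rw [← Nat.add_assoc, ← Nat.add_assoc, cf, cf, ih]

/-- the algorithm stops within `2 ^ (m + 1)` steps -/
theorem cf_end {F : List Bool → List Bool} {m : ℕ} {z : List Bool} {P : Prop}
    (h : Dec F m z P) : ∃ y, (P ↔ y = [true]) ∧ ∀ N, 2 ^ (m + 1) ≤ N → cf F z N = true :: y := by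
  classical
  obtain ⟨h1, s, y, h2, h3, h4⟩ := h
  obtain ⟨i, hi⟩ := reach_cf h2
  have hi1 : cf F z (i + 1) = true :: y := by
    rw [cf, hi, if_pos (by simp)]
    exact h3
  have hex : ∃ i, (cf F z i).head? ≠ some false := ⟨i + 1, by rw [hi1]; simp⟩
  set i₀ := Nat.find hex with hi₀
  have hs := Nat.find_spec hex
  rw [← hi₀] at hs
  have hlt : ∀ j < i₀, (cf F z j).head? = some false := by
    intro j hj
    have := Nat.find_min hex hj
    simpa using this
  have hle : i₀ ≤ i + 1 := Nat.find_min' hex (by rw [hi1]; simp)
  have hy : cf F z i₀ = true :: y := by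
    rw [← hi1]
    have := cf_stop hs (i + 1 - i₀)
    rw [Nat.add_sub_cancel' hle] at this
    exact this.symm
  refine ⟨y, h4, fun N hN => ?_⟩
  have hne : ∀ j k, j < k → k < i₀ → cf F z j ≠ cf F z k := by
    intro j k hjk hk he
    have := cf_shift he (i₀ - k)
    rw [Nat.add_sub_cancel' hk.le] at this
    have h5 := hlt (j + (i₀ - k)) (by omega)
    rw [this] at h5
    exact hs h5
  have hcons : ∀ j < i₀, cf F z j = false :: (cf F z j).tail := by
    intro j hj
    have := hlt j hj
    cases hc : cf F z j with
    | nil => rw [hc] at this; simp at this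
    | cons b t =>
      rw [hc] at this
      simp only [List.head?_cons, Option.some.injEq] at this
      subst this
      rfl
  have hcard : i₀ ≤ (advs m).card := by
    rw [← Finset.card_range i₀]
    refine Finset.card_le_card_of_injOn (fun j => (cf F z j).tail) (fun j hj => ?_) ?_
    · have hj' := Finset.mem_range.1 (Finset.mem_coe.1 hj)
      exact Finset.mem_coe.2 (mem_advs (h1 _ (cf_reach j _ (hcons j hj'))))
    · intro j hj k hk he
      have hj' := Finset.mem_range.1 (Finset.mem_coe.1 hj)
      have hk' := Finset.mem_range.1 (Finset.mem_coe.1 hk)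
      simp only at he
      have h6 : cf F z j = cf F z k := by rw [hcons j hj', hcons k hk', he]
      rcases Nat.lt_trichotomy j k with h7 | h7 | h7
      · exact absurd h6 (hne j k h7 hk')
      · exact h7
      · exact absurd h6.symm (hne k j h7 hj')
  have h8 := card_advs1 m
  have := cf_stop hs (N - i₀)
  rw [Nat.add_sub_cancel' (by omega)] at this
  rw [this, hy]

/-- one step of the simulation -/
def SS (F : List Bool → List Bool) (u : List Bool) : List Bool :=
  if (unpair u).1.head? = some false then
    pairBits (F (pairBits (unpair u).1.tail (unpair u).2)) (unpair u).2 else u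

theorem SS_iter (F : List Bool → List Bool) (z : List Bool) (i : ℕ) :
    (SS F)^[i] (pairBits [false] z) = pairBits (cf F z i) z := by
  induction i with
  | zero => rfl
  | succ i ih =>
    rw [Function.iterate_succ_apply', ih, SS, cf]
    simp only [unpair_pairBits]
    split_ifs <;> rfl

theorem isFP_SS {A : Oracle} {F : List Bool → List Bool} (hF : IsFP A F) : IsFP A (SS F) := by
  have h0 : IsFP A (fun u : List Bool => u) := IsFP.of_poly Poly.id
  have h := IsFP.seq (A := A) (F := fun u => u) (G := F)
    (φ := fun p => pairBits (unpair p.1).1.tail (unpair p.1).2)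
    (ψ := fun p => if (unpair p.1).1.head? = some false then pairBits p.2.2 (unpair p.1).2
      else p.1) h0 hF
    (poly_pairBits (Poly.tail (Poly.fst (poly_unpair.comp (Poly.fst Poly.id))))
      (Poly.snd (poly_unpair.comp (Poly.fst Poly.id))))
    (Poly.ite (Poly.decide_eq (Poly.head? (Poly.fst (poly_unpair.comp (Poly.fst Poly.id))))
      (NPC.Poly.const _))
      (poly_pairBits (Poly.snd (Poly.snd Poly.id)) (Poly.snd (poly_unpair.comp (Poly.fst Poly.id))))
      (Poly.fst Poly.id))
  exact h

/-- the input of the simulated algorithm -/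
def zz (y : List Bool) : List Bool :=
  pairBits (List.replicate (min (2 ^ (unpair y).2.length) (unpair y).1.length) true) (unpair y).2

theorem poly_zz : Poly zz := by
  have h1 : Poly (fun y : List Bool => (unpair y).1) := Poly.fst poly_unpair
  have h2 : Poly (fun y : List Bool => (unpair y).2) := Poly.snd poly_unpair
  unfold zz
  refine poly_pairBits (V7.poly_replicate (UPoly.of_le ?_ (UPoly.length h1) fun y =>
    min_le_right _ _)) h2
  have h3 : Poly (fun y : List Bool => 2 ^ (unpair y).2.length) :=
    A4.poly_two_pow (UPoly.length h2)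
  refine (Poly.ite (Poly.decide_le h3 (Poly.length h1)) h3 (Poly.length h1)).congr fun y => ?_
  split_ifs with h
  · exact (min_eq_left h).symm
  · exact (min_eq_right (le_of_not_ge h)).symm

theorem zz_eq {T : ℕ} {x : List Bool} (h : 2 ^ x.length ≤ T) :
    zz (pairBits (List.replicate T true) x) =
      pairBits (List.replicate (2 ^ x.length) true) x := by
  unfold zz
  rw [unpair_pairBits, List.length_replicate, min_eq_left h]

/-- **Deterministic simulation.** -/
theorem InMem.timeO {g h : ℕ → ℕ} (hg : NiceT (fun n => 2 ^ n) g) {c : ℕ}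
    (hc : ∀ n, g n ≤ c * (h n + n + 1)) {A : Oracle} {L : Set (List Bool)}
    (hL : InMem (fun n => 2 ^ n) g A L) : InTimeO h A L := by
  obtain ⟨B, hB⟩ := hg.poly (fun n => Nat.lt_two_pow_self.le)
  obtain ⟨F, hF, hx⟩ := hL
  -- truncation
  obtain ⟨F', hF'⟩ : ∃ F' : List Bool → List Bool,
      F' = fun u => (F u).take (B.eval (unpair u).2.length + 3) := ⟨_, rfl⟩
  have hFP : IsFP A F' := by
    rw [hF']
    exact IsFP.seq (A := A) (F := F) (G := fun u => u) (φ := fun p => p.1)
      (ψ := fun p => p.2.1.take (B.eval (unpair p.1).2.length + 3)) hF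
      (IsFP.of_poly Poly.id) (Poly.fst Poly.id)
      (R1.poly_take (Poly.fst (Poly.snd Poly.id))
        (((UPoly.length (Poly.snd (poly_unpair.comp (Poly.fst Poly.id)))).eval B).add
          (UPoly.const 3)))
  have hlen : ∀ u, (F' u).length ≤ B.eval (unpair u).2.length + 3 := by
    intro u
    rw [hF']
    simp only [List.length_take]
    exact min_le_left _ _
  have hcf : ∀ z i, (cf F' z i).length ≤ B.eval z.length + 3 := by
    intro z i
    induction i with
    | zero => rw [cf]; simp
    | succ i ih =>
      rw [cf]
      split_ifs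
      · have := hlen (pairBits (cf F' z i).tail z)
        rwa [unpair_pairBits] at this
      · exact ih
  obtain ⟨Z, hZ⟩ := len_poly poly_zz
  have hloop := IsFP.loop (isFP_SS hFP) (g := fun y => pairBits [false] (zz y))
    (poly_pairBits (NPC.Poly.const _) poly_zz) Polynomial.X
    (2 * (B.comp Z + 3) + 1 + Z) (by
      intro y i _
      rw [SS_iter, Pool.Agent.H620R2.Gauge.length_pairBits]
      have h1 := hcf (zz y) i
      have h2 := hZ y
      have h3 := eval_mono B h2
      simp only [Polynomial.eval_add, Polynomial.eval_mul, Polynomial.eval_comp,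
        Polynomial.eval_ofNat, Polynomial.eval_one]
      omega)
  have hout : IsFP A (fun u : List Bool => if (unpair u).1.head? = some true then
      (unpair u).1.tail else []) :=
    IsFP.of_poly (Poly.ite (Poly.decide_eq (Poly.head? (Poly.fst poly_unpair))
      (NPC.Poly.const _)) (Poly.tail (Poly.fst poly_unpair)) (NPC.Poly.const _))
  refine ⟨c + 1, _, IsFP.comp hout hloop, fun x => ?_⟩
  have hT : 2 ^ x.length ≤ 2 ^ ex h (c + 1) x.length := by
    apply Nat.pow_le_pow_right (by norm_num)
    unfold ex
    have : (c + 1) * (h x.length + x.length + 1) =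
      c * (h x.length + x.length + 1) + (h x.length + x.length + 1) := by ring
    omega
  have hzz := zz_eq (x := x) hT
  obtain ⟨z, hz⟩ : ∃ z, z = pairBits (List.replicate (2 ^ x.length) true) x := ⟨_, rfl⟩
  rw [← hz] at hzz
  have hd : Dec F (g x.length) z (x ∈ L) := by
    rw [hz]
    exact hx x
  have hgz : g x.length ≤ B.eval z.length := by
    refine (hB x.length).trans (eval_mono B ?_)
    rw [hz, Pool.Agent.H620R2.Gauge.length_pairBits, List.length_replicate]
    omega
  have hd' : Dec F' (g x.length) z (x ∈ L) := by
    refine trunc_dec hd (K := B.eval z.length + 3) (by omega) fun s => ?_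
    rw [hF']
    simp only [unpair_pairBits]
  obtain ⟨y, hy1, hy2⟩ := cf_end hd'
  have hN : 2 ^ (g x.length + 1) ≤
      (Polynomial.X : Polynomial ℕ).eval
        (pairBits (List.replicate (2 ^ ex h (c + 1) x.length) true) x).length := by
    rw [Polynomial.eval_X, Pool.Agent.H620R2.Gauge.length_pairBits, List.length_replicate]
    have h1 : 2 ^ (g x.length + 1) ≤ 2 ^ ex h (c + 1) x.length := by
      apply Nat.pow_le_pow_right (by norm_num)
      unfold ex
      have h2 := hc x.length
      have : (c + 1) * (h x.length + x.length + 1) =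
        c * (h x.length + x.length + 1) + (h x.length + x.length + 1) := by ring
      omega
    omega
  rw [hzz, SS_iter, hy2 _ hN, unpair_pairBits]
  simp only [List.head?_cons, if_true, List.tail_cons]
  exact hy1

/-- deterministic time is contained in alternating time -/
theorem InTimeO.alt {h : ℕ → ℕ} {A : Oracle} {L : Set (List Bool)} (hL : InTimeO h A L) :
    InAltO h A L := by
  obtain ⟨c, U, hU, hx⟩ := hL
  refine ⟨c, 0, fun u => U (pairBits (unpair u).1 (unpair (unpair u).2).1), fun _ => [],
    hU.precomp (poly_pairBits (Poly.fst poly_unpair)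
      (Poly.fst (poly_unpair.comp (Poly.snd poly_unpair)))), fun n => Nat.zero_le _, fun x => ?_⟩
  rw [hx x, Quant]
  simp only [unpair_pairBits]

end Pool.Agent.TH93.MM
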