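import Pool.Agent.TH93.MM.EvA
import Pool.Agent.TH93.MM.Up

/-!
# The law for the number of memory bits: alternating time
-/

set_option autoImplicit false

namespace Pool.Agent.TH93.MM

open Pool.Agent.NPC Pool.Agent.H620R2.Gauge Finset H568R2 Pool.Agent.H676
open Pool.Agent.TH93.GL MeasureTheory Filter
open Pool.Agent.TH683.AT (poly_small)

/-- A general form of the Borel-Cantelli argument: for every `n` there are at most `2 ^ R(n)` events
with probability at most `4 * (1 / 2) ^ (2 ^ n / 2)` each. -/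
theorem ae_bc (E : ℕ → ℕ → Set Oracle) (good : ℕ → ℕ → Prop) (b : ℕ → ℕ) (R : Polynomial ℕ)
    (hb : ∀ n, b n + 1 ≤ 2 ^ R.eval n)
    (hE : ∀ n e, good n e → ∃ (N : ℕ) (P : (Fin N → Bool) → Prop), (∀ A ∈ E n e, P (pre N A)) ∧
      ∀ D : DecidablePred P, Ex unif (fun a : Fin N → Bool => if P a then (1 : ℝ) else 0) ≤
        4 * (1 / 2) ^ (2 ^ n / 2)) :
    ∀ᵐ A ∂ranO, ∃ n₀ : ℕ, ∀ n ≥ n₀, ∀ e ≤ b n, good n e → A ∉ E n e := by
  classical
  obtain ⟨n₀, hn₀⟩ := poly_small (2 * (R + Polynomial.X + 3))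
  have hpr : ∀ n ≥ n₀, ranO (⋃ e ∈ Finset.range (b n + 1), {A | good n e ∧ A ∈ E n e}) ≤
      ENNReal.ofReal ((1 / 2) ^ n) := by
    intro n hn
    have h1 : ∀ e, ranO {A | good n e ∧ A ∈ E n e} ≤
        ENNReal.ofReal (4 * (1 / 2) ^ (2 ^ n / 2)) := by
      intro e
      by_cases hg : good n e
      · obtain ⟨N, P, hP, hPb⟩ := hE n e hg
        refine (measure_mono fun A hA => hP A hA.2).trans ?_
        exact (Pool.Agent.TH683.CP.ranO_pre _).trans (ENNReal.ofReal_le_ofReal (hPb _))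
      · have : {A : Oracle | good n e ∧ A ∈ E n e} = ∅ := by
          ext A
          simp [hg]
        rw [this, measure_empty]
        exact zero_le
    refine (measure_biUnion_finset_le _ _).trans ((Finset.sum_le_sum fun e _ => h1 e).trans ?_)
    rw [Finset.sum_const, Finset.card_range, nsmul_eq_mul, ← ENNReal.ofReal_natCast,
      ← ENNReal.ofReal_mul (by positivity)]
    apply ENNReal.ofReal_le_ofReal
    have h2 := hn₀ n hn
    simp only [Polynomial.eval_add, Polynomial.eval_mul, Polynomial.eval_ofNat,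
      Polynomial.eval_X] at h2
    have h3 : ((b n + 1 : ℕ) : ℝ) ≤ 2 ^ R.eval n := by exact_mod_cast hb n
    calc ((b n + 1 : ℕ) : ℝ) * (4 * (1 / 2) ^ (2 ^ n / 2)) ≤
          2 ^ R.eval n * (4 * (1 / 2) ^ (R.eval n + 2 + n)) := by
          apply mul_le_mul h3 _ (by positivity) (by positivity)
          apply mul_le_mul_of_nonneg_left _ (by norm_num)
          exact pow_le_pow_of_le_one (by norm_num) (by norm_num) (by omega)
      _ = (2 ^ R.eval n * (1 / 2) ^ R.eval n) * (1 / 2) ^ n := by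
          rw [pow_add (1 / 2 : ℝ), pow_add (1 / 2 : ℝ)]
          ring
      _ = _ := by
          rw [← mul_pow]
          norm_num
  have hsum : ∑' m, ranO (⋃ e ∈ Finset.range (b (n₀ + m) + 1),
      {A | good (n₀ + m) e ∧ A ∈ E (n₀ + m) e}) ≠ ⊤ := by
    have h1 : ∑' m, ranO (⋃ e ∈ Finset.range (b (n₀ + m) + 1),
        {A | good (n₀ + m) e ∧ A ∈ E (n₀ + m) e}) ≤ ∑' m : ℕ, (2⁻¹ : ENNReal) ^ m := by
      refine ENNReal.tsum_le_tsum fun m => ?_
      refine (hpr (n₀ + m) (by omega)).trans ?_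
      have h2 : ENNReal.ofReal ((1 / 2) ^ (n₀ + m)) ≤ ENNReal.ofReal ((1 / 2) ^ m) := by
        apply ENNReal.ofReal_le_ofReal
        exact pow_le_pow_of_le_one (by norm_num) (by norm_num) (by omega)
      refine h2.trans (le_of_eq ?_)
      rw [ENNReal.ofReal_pow (by norm_num), one_div, ENNReal.ofReal_inv_of_pos (by positivity)]
      simp
    refine ne_top_of_le_ne_top ?_ h1
    rw [ENNReal.tsum_geometric, ENNReal.one_sub_inv_two, inv_inv]
    exact ENNReal.ofNat_ne_top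
  have h2 := ae_eventually_notMem hsum
  filter_upwards [h2] with A hA
  obtain ⟨n₁, hn₁⟩ := eventually_atTop.1 hA
  refine ⟨n₀ + n₁, fun m hm e he hg hA' => ?_⟩
  have := hn₁ (m - n₀) (by omega)
  rw [Nat.add_sub_cancel' (by omega)] at this
  refine this (Set.mem_biUnion (Finset.mem_coe.2 (Finset.mem_range.2 (by omega))) ⟨hg, hA'⟩)

/-- a bound for nice functions -/
theorem nice_bound {g : ℕ → ℕ} (hg : NiceT (fun n => 2 ^ n) g) :
    ∃ R : Polynomial ℕ, ∀ n, g n + 1 ≤ 2 ^ R.eval n := by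
  obtain ⟨S, hS⟩ := hg.poly (fun n => Nat.lt_two_pow_self.le)
  obtain ⟨c₀, hc₀⟩ := poly_log (S + 1)
  refine ⟨Polynomial.C c₀ * (Polynomial.X + 1), fun n => ?_⟩
  have h1 := hc₀ (2 ^ n)
  simp only [Polynomial.eval_add, Polynomial.eval_one, Nat.log_pow (by norm_num : 1 < 2)] at h1
  have h2 := hS n
  refine le_trans ?_ (h1.trans (le_of_eq ?_))
  · omega
  · simp

/-- the constant of an alternating algorithm -/
theorem exists_const (P : Polynomial ℕ) : ∃ c, 1 ≤ c ∧ ∀ E m, c * (E + 1) ≤ m →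
    P.eval (2 ^ E) ≤ 2 ^ m := by
  obtain ⟨c, hc⟩ := poly_log P
  refine ⟨c + 1, by omega, fun E m hm => (hc _).trans ?_⟩
  rw [Nat.log_pow (by norm_num)]
  apply Nat.pow_le_pow_right (by norm_num)
  have : (c + 1) * (E + 1) = c * (E + 1) + (E + 1) := by ring
  omega

/-- the lower bound for alternating time -/
theorem low_alt {g : ℕ → ℕ} (hg : NiceT (fun n => 2 ^ n) g) :
    ∀ᵐ A ∂ranO, ∀ h : ℕ → ℕ, InAltO h A (parM (fun n => g n - 2) A) →
      ∃ c, ∀ n, g n ≤ c * (h n + n + 1) := by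
  obtain ⟨R, hR⟩ := nice_bound hg
  have hk : ∀ p : Alg × ℕ, ∃ c, 1 ≤ c ∧ ∀ E m, c * (E + 1) ≤ m →
      (PR p.1 p.2).eval (2 ^ E) ≤ 2 ^ m := fun p => exists_const _
  choose K hK1 hK using hk
  have h1 : ∀ᵐ A ∂ranO, ∀ p : Alg × ℕ, ∃ n₀ : ℕ, ∀ n ≥ n₀, ∀ e ≤ g n,
      K p * (e + n + 1) ≤ g n - 2 → A ∉ EvA p.1 p.2 n e (g n - 2) := by
    refine ae_all_iff.2 fun p => ?_
    refine ae_bc (fun n e => EvA p.1 p.2 n e (g n - 2)) (fun n e => K p * (e + n + 1) ≤ g n - 2)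
      g R hR fun n e hne => ?_
    obtain ⟨N, P, h2, h3⟩ := evA_prefix p.1 p.2 n e (g n - 2) (hK p (e + n) _ hne)
    refine ⟨N, P, h2, fun D => ?_⟩
    refine le_trans (le_of_eq ?_) h3
    congr 1
    funext a
    congr
  filter_upwards [h1] with A hA h hL
  obtain ⟨c, k, V, a, ⟨M, hM⟩, ha, hx⟩ := hL
  obtain ⟨n₀, hn₀⟩ := hA (M, k)
  have hn₀' : ∀ n ≥ n₀, ∀ e ≤ g n, K (M, k) * (e + n + 1) ≤ g n - 2 →
    A ∉ EvA M k n e (g n - 2) := hn₀
  have hK1' := hK1 (M, k)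
  obtain ⟨K₀, hK₀⟩ : ∃ K₀, K₀ = K (M, k) := ⟨_, rfl⟩
  rw [← hK₀] at hn₀' hK1'
  refine ⟨K₀ * (c + 1) + 2 + ∑ i ∈ Finset.range n₀, g i, fun n => ?_⟩
  by_cases hn : n < n₀
  · have h1 : g n ≤ ∑ i ∈ Finset.range n₀, g i :=
      Finset.single_le_sum (f := g) (fun i _ => Nat.zero_le _) (Finset.mem_range.2 hn)
    have h2 : (∑ i ∈ Finset.range n₀, g i) ≤
        (K₀ * (c + 1) + 2 + ∑ i ∈ Finset.range n₀, g i) * (h n + n + 1) := by
      calc (∑ i ∈ Finset.range n₀, g i) ≤ (K₀ * (c + 1) + 2 + ∑ i ∈ Finset.range n₀, g i) * 1 := by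
            omega
        _ ≤ _ := Nat.mul_le_mul_left _ (by omega)
    omega
  · have hev : A ∈ EvA M k n (ex h c n) (g n - 2) := by
      refine ⟨V, hM, a n, ha n, fun x hxn => ?_⟩
      have := hx x
      rw [hxn] at this
      unfold parM at this
      rw [Set.mem_ofPred_eq] at this
      simp only [hxn] at this
      exact this
    have hcon : ¬ (K₀ * (ex h c n + n + 1) ≤ g n - 2) := by
      intro h3
      have h4 : ex h c n + n + 1 ≤ K₀ * (ex h c n + n + 1) := Nat.le_mul_of_pos_left _ (by omega)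
      exact hn₀' n (by omega) (ex h c n) (by omega) h3 hev
    have h5 : K₀ * (ex h c n + n + 1) ≤ K₀ * (c + 1) * (h n + n + 1) := by
      rw [Nat.mul_assoc]
      apply Nat.mul_le_mul_left
      unfold ex
      have : (c + 1) * (h n + n + 1) = c * (h n + n + 1) + (h n + n + 1) := by ring
      omega
    have h6 : K₀ * (c + 1) * (h n + n + 1) + 2 * (h n + n + 1) ≤
        (K₀ * (c + 1) + 2 + ∑ i ∈ Finset.range n₀, g i) * (h n + n + 1) := by
      rw [← Nat.add_mul]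
      exact Nat.mul_le_mul_right _ (by omega)
    omega

/-- **The law for the number of memory bits, alternating time.** -/
theorem law_alt : ∀ᵐ A ∂ranO, ∀ g h : ℕ → ℕ, NiceT (fun n => 2 ^ n) g → List.TFAE [
      ∀ L, InMem (fun n => 2 ^ n) g A L → InTimeO h A L,
      ∀ L, InMem (fun n => 2 ^ n) g A L → InAltO h A L,
      ∃ c, ∀ n, g n ≤ c * (h n + n + 1)] := by
  have key : ∀ᵐ A ∂ranO, ∀ g, NiceT (fun n => 2 ^ n) g → ∀ h : ℕ → ℕ,
      InAltO h A (parM (fun n => g n - 2) A) → ∃ c, ∀ n, g n ≤ c * (h n + n + 1) :=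
    (ae_ball_iff (countable_niceT _)).2 fun g hg => low_alt hg
  filter_upwards [key] with A hA g h hg
  tfae_have 1 → 2 := fun h1 L hL => (h1 L hL).alt
  tfae_have 2 → 3 := fun h2 => hA g hg h (h2 _ (parM_mem hg A))
  tfae_have 3 → 1 := by
    rintro ⟨c, hc⟩ L hL
    exact hL.timeO hg hc
  tfae_finish

end Pool.Agent.TH93.MM
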