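import Pool.Agent.TH93.MM.Up

/-!
# Few bits of memory: deterministic simulation with an exact bound for the number of rounds
-/

set_option autoImplicit false

namespace Pool.Agent.TH93.MM

open Pool.Agent.NPC Pool.Agent.H620R2.Gauge Pool.Agent.H622R2 Pool.Agent.TH93.GL
open Pool.Agent.H622R2.Exp Pool.Agent.TH678.ETH

/-- the answer of the algorithm in the present situation -/
def nx (D : List Bool → List Bool) (z : List Bool) (s : List Bool × List Bool) : List Bool :=
  D (pairBits (pairBits s.1.tail z) s.2)

/-- the state consists of the configuration and the answers of the present step -/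
def sstep (D : List Bool → List Bool) (K : ℕ) (z : List Bool) (s : List Bool × List Bool)
    (ans : Bool) : List Bool × List Bool :=
  if s.1.head? = some false then
    (if (nx D z s).head? = some false then (s.1, s.2 ++ [ans]) else ((nx D z s).tail.take K, []))
  else s

/-- the state after the answers `a` -/
def sst (D : List Bool → List Bool) (K : ℕ) (z a : List Bool) : List Bool × List Bool :=
  a.foldl (sstep D K z) ([false], [])

theorem sst_concat (D : List Bool → List Bool) (K : ℕ) (z a : List Bool) (ans : Bool) :
    sst D K z (a ++ [ans]) = sstep D K z (sst D K z a) ans := by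
  simp [sst, List.foldl_append]

theorem sst_bound (D : List Bool → List Bool) (K : ℕ) (z a : List Bool) :
    (sst D K z a).1.length ≤ K + 1 ∧ (sst D K z a).2.length ≤ a.length := by
  induction a using List.reverseRecOn with
  | nil => simp [sst]
  | append_singleton a ans ih =>
    rw [sst_concat, sstep]
    obtain ⟨h1, h2⟩ := ih
    rw [List.length_append, List.length_singleton]
    split_ifs
    · simp only [List.length_append, List.length_singleton]
      omega
    · simp only [List.length_take, List.length_nil]
      omega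
    · omega

/-- the next action -/
def sact (D : List Bool → List Bool) (z : List Bool) (s : List Bool × List Bool) : List Bool :=
  if s.1.head? = some false then
    (if (nx D z s).head? = some false then nx D z s else [false])
  else true :: s.1.tail

/-- the state, as a function of a pair -/
def simS (D : List Bool → List Bool) (B : Polynomial ℕ) (p : List Bool × List Bool) :
    List Bool × List Bool := sst D (B.eval p.1.length + 3) p.1 p.2

/-- the next action, as a function of the input and the answers -/
def simD (D : List Bool → List Bool) (B : Polynomial ℕ) (y : List Bool) : List Bool :=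
  sact D (zz (unpair y).1) (simS D B (zz (unpair y).1, (unpair y).2))

theorem poly_nx {α : Type} [TEnc α] {D : List Bool → List Bool} (hD : Poly D)
    {z : α → List Bool} (hz : Poly z) {s : α → List Bool × List Bool} (hs : Poly s) :
    Poly (fun a => nx D (z a) (s a)) :=
  hD.comp (poly_pairBits (poly_pairBits (Poly.tail (Poly.fst hs)) hz) (Poly.snd hs))

theorem poly_sst {D : List Bool → List Bool} (hD : Poly D) (B : Polynomial ℕ) :
    Poly (fun p : List Bool × List Bool => sst D (B.eval p.1.length + 3) p.1 p.2) := by
  refine Poly.foldl (l := fun p : List Bool × List Bool => p.2)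
    (s := fun _ => (([false], []) : List Bool × List Bool))
    (F := fun p => sstep D (B.eval p.1.length + 3) p.1)
    (Poly.snd Poly.id) (NPC.Poly.const _) ?_
    (Polynomial.C 8 * Polynomial.X + Polynomial.C 4 * B + Polynomial.C 30) ?_
  · have h1 : Poly (fun p : (List Bool × List Bool) × (List Bool × List Bool) × Bool =>
        p.2.1) := Poly.fst (Poly.snd Poly.id)
    have h2 : Poly (fun p : (List Bool × List Bool) × (List Bool × List Bool) × Bool =>
        p.1.1) := Poly.fst (Poly.fst Poly.id)
    have h3 := poly_nx hD h2 h1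
    exact Poly.ite (Poly.decide_eq (Poly.head? (Poly.fst h1)) (NPC.Poly.const _))
      (Poly.ite (Poly.decide_eq (Poly.head? h3) (NPC.Poly.const _))
        (Poly.pair (Poly.fst h1) (Poly.append (Poly.snd h1)
          (Poly.cons (Poly.snd (Poly.snd Poly.id)) (NPC.Poly.const []))))
        (Poly.pair (R1.poly_take (Poly.tail h3) (((UPoly.length h2).eval B).add
          (UPoly.const 3))) (NPC.Poly.const []))) h1
  · intro p k _
    obtain ⟨z, a⟩ := p
    obtain ⟨h1, h2⟩ := sst_bound D (B.eval z.length + 3) z (a.take k)
    change sz (sst D (B.eval z.length + 3) z (a.take k)) ≤ _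
    have h6 : (a.take k).length ≤ a.length := by simp
    have h7 := length_lt_sz a
    have h8 := length_lt_sz z
    generalize sst D (B.eval z.length + 3) z (a.take k) = s at *
    obtain ⟨s, c⟩ := s
    have e2 := sz_listBool_le s
    have e3 := sz_listBool_le c
    have e4 : B.eval z.length ≤ B.eval (sz (z, a)) := eval_mono B (by rw [sz_pair]; omega)
    simp only [Polynomial.eval_add, Polynomial.eval_mul, Polynomial.eval_X, Polynomial.eval_C]
    simp only at h1 h2
    rw [sz_pair s c]
    have e6 : sz (z, a) = sz z + sz a + 1 := sz_pair z a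
    omega

theorem poly_sact {D : List Bool → List Bool} (hD : Poly D) :
    Poly (fun p : List Bool × (List Bool × List Bool) => sact D p.1 p.2) := by
  have h1 : Poly (fun p : List Bool × (List Bool × List Bool) => p.1) := Poly.fst Poly.id
  have h2 : Poly (fun p : List Bool × (List Bool × List Bool) => p.2) := Poly.snd Poly.id
  have h3 := poly_nx hD h1 h2
  exact Poly.ite (Poly.decide_eq (Poly.head? (Poly.fst h2)) (NPC.Poly.const _))
    (Poly.ite (Poly.decide_eq (Poly.head? h3) (NPC.Poly.const _)) h3 (NPC.Poly.const _))
    (Poly.cons (NPC.Poly.const true) (Poly.tail (Poly.fst h2)))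

theorem poly_simD {D : List Bool → List Bool} (hD : Poly D) (B : Polynomial ℕ) :
    Poly (simD D B) := by
  have h1 : Poly (fun y : List Bool => zz (unpair y).1) := poly_zz.comp (Poly.fst poly_unpair)
  have h0 : Poly (simS D B) := poly_sst hD B
  exact (poly_sact hD).comp (Poly.pair h1 (h0.comp (Poly.pair h1 (Poly.snd poly_unpair))))

theorem run_mono (M : Alg) {A : Oracle} {x : List Bool} : ∀ {n m : ℕ} {a z : List Bool}, n ≤ m →
    M.run A x n a = some z → M.run A x m a = some z := by
  intro n
  induction n with
  | zero => intro m a z _ h; simp [Alg.run] at h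
  | succ n ih =>
    intro m a z hm h
    obtain ⟨m, rfl⟩ : ∃ m', m = m' + 1 := ⟨m - 1, by omega⟩
    rw [A2.run_succ] at h ⊢
    split_ifs at h ⊢ with h1
    · exact ih (by omega) h
    · exact h

/-- the algorithm -/
noncomputable def simAlg (M : Alg) (B : Polynomial ℕ) : Alg where
  D := simD M.D B
  poly := polyTime_of_poly_list (poly_simD (poly_of_polyTime M.poly) B)
  p := 0

theorem simAlg_D (M : Alg) (B : Polynomial ℕ) (y a : List Bool) :
    (simAlg M B).D (pairBits y a) =
      sact M.D (zz y) (sst M.D (B.eval (zz y).length + 3) (zz y) a) := by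
  change simD M.D B (pairBits y a) = _
  unfold simD simS
  rw [unpair_pairBits]

/-- one step of the simulated algorithm -/
theorem sim_one (M : Alg) (B : Polynomial ℕ) (A : Oracle) (y z : List Bool) (hz : zz y = z)
    (c z' out : List Bool) (K : ℕ) (hc : c.head? = some false)
    (hK : ∀ (a' : List Bool) (m' : ℕ), K ≤ m' →
      sst M.D (B.eval z.length + 3) z a' = (z'.take (B.eval z.length + 3), []) →
      (simAlg M B).run A y m' a' = some out) :
    ∀ (n : ℕ) (cur a : List Bool), sst M.D (B.eval z.length + 3) z a = (c, cur) →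
      M.run A (pairBits c.tail z) n cur = some z' →
      ∀ m ≥ n + K, (simAlg M B).run A y m a = some out := by
  intro n
  induction n with
  | zero => intro cur a _ h; simp [Alg.run] at h
  | succ n ih =>
    intro cur a ha h m hm
    obtain ⟨m, rfl⟩ : ∃ m', m = m' + 1 := ⟨m - 1, by omega⟩
    rw [A2.run_succ] at h
    rw [A2.run_succ, simAlg_D, hz, ha]
    have hact : sact M.D z (c, cur) =
        if (nx M.D z (c, cur)).head? = some false then nx M.D z (c, cur) else [false] := by
      unfold sact
      exact if_pos hc
    rw [hact]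
    have hnx : nx M.D z (c, cur) = M.D (pairBits (pairBits c.tail z) cur) := rfl
    by_cases h1 : (M.D (pairBits (pairBits c.tail z) cur)).head? = some false
    · rw [if_pos h1] at h
      rw [hnx, if_pos h1, if_pos h1]
      refine ih _ _ ?_ h m (by omega)
      rw [sst_concat, ha, sstep, if_pos hc, hnx, if_pos h1]
    · rw [if_neg h1] at h
      rw [hnx, if_neg h1, if_pos (by simp)]
      refine hK _ m (by omega) ?_
      rw [sst_concat, ha, sstep, if_pos hc, hnx, if_neg h1]
      simp only [Option.some.injEq] at h
      rw [← h]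

/-- the whole simulation -/
theorem sim_all (M : Alg) (B : Polynomial ℕ) (A : Oracle) (F F' : List Bool → List Bool)
    (y z : List Bool) (hz : zz y = z) (R : ℕ)
    (hF' : ∀ s, F' (pairBits s z) = (F (pairBits s z)).take (B.eval z.length + 3))
    (hM : ∀ s, s.length ≤ B.eval z.length + 3 →
      M.run A (pairBits s z) R [] = some (F (pairBits s z)))
    (hlen : ∀ i, (cf F' z i).length ≤ B.eval z.length + 3) (i₀ : ℕ) (out : List Bool)
    (hend : cf F' z i₀ = true :: out) :
    ∀ m ≥ i₀ * R + 1, (simAlg M B).run A y m [] = some out := by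
  have key : ∀ (j i : ℕ), i + j = i₀ → ∀ a : List Bool,
      sst M.D (B.eval z.length + 3) z a = (cf F' z i, []) → ∀ m ≥ j * R + 1,
        (simAlg M B).run A y m a = some out := by
    intro j
    induction j with
    | zero =>
      intro i hi a ha m hm
      obtain ⟨m, rfl⟩ : ∃ m', m = m' + 1 := ⟨m - 1, by omega⟩
      rw [add_zero] at hi
      rw [A2.run_succ, simAlg_D, hz, ha, hi, hend]
      have hact : sact M.D z (true :: out, []) = true :: out := by
        unfold sact
        rw [if_neg (by simp)]
        rfl
      rw [hact, if_neg (by simp), List.tail_cons]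
    | succ j ih =>
      intro i hi a ha m hm
      by_cases hc : (cf F' z i).head? = some false
      · have h1 := hM (cf F' z i).tail (by
          rw [List.length_tail]
          have := hlen i
          omega)
        refine sim_one M B A y z hz (cf F' z i) (F (pairBits (cf F' z i).tail z)) out
          (j * R + 1) hc (fun a' m' hm' ha' => ?_) R [] a ha h1 m ?_
        · refine ih (i + 1) (by omega) a' ?_ m' hm'
          rw [ha', cf, if_pos hc, hF']
        · have : (j + 1) * R = R + j * R := by ring
          omega
      · -- already stopped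
        have h2 : cf F' z i₀ = cf F' z i := by
          rw [← hi]
          exact cf_stop hc _
        obtain ⟨m, rfl⟩ : ∃ m', m = m' + 1 := ⟨m - 1, by omega⟩
        rw [A2.run_succ, simAlg_D, hz, ha, ← h2, hend]
        have hact : sact M.D z (true :: out, []) = true :: out := by
          unfold sact
          rw [if_neg (by simp)]
          rfl
        rw [hact, if_neg (by simp), List.tail_cons]
  intro m hm
  exact key i₀ 0 (Nat.zero_add _) [] rfl m hm

/-- **Deterministic simulation with an exact bound for the number of rounds.** -/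
theorem InMem.timeX {g h : ℕ → ℕ} (hg : NiceT (fun n => 2 ^ n) g) {c : ℕ}
    (hc : ∀ n, g n ≤ h n + c * (n + 1)) {A : Oracle} {L : Set (List Bool)}
    (hL : InMem (fun n => 2 ^ n) g A L) : InTimeX h A L := by
  obtain ⟨B, hB⟩ := hg.poly (fun n => Nat.lt_two_pow_self.le)
  obtain ⟨F, ⟨M, hM⟩, hx⟩ := hL
  obtain ⟨qb, hqb⟩ := Alg.out_local M
  -- bounds, in terms of `2 ^ n`
  obtain ⟨Z, hZ⟩ : ∃ Z : Polynomial ℕ, Z = 3 * Polynomial.X + 1 := ⟨_, rfl⟩
  obtain ⟨U, hU⟩ : ∃ U : Polynomial ℕ, U = 2 * (B.comp Z + 3) + 1 + Z := ⟨_, rfl⟩
  obtain ⟨p, hp⟩ : ∃ p : Polynomial ℕ, p = 2 * (2 * Polynomial.X) ^ c * M.p.comp U + 1 +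
      qb.comp U + Polynomial.X := ⟨_, rfl⟩
  refine ⟨simAlg M B, p, fun x => ?_⟩
  obtain ⟨n, hn⟩ : ∃ n, n = x.length := ⟨_, rfl⟩
  obtain ⟨T, hT⟩ : ∃ T, T = rd h p x.length := ⟨_, rfl⟩
  rw [← hT]
  obtain ⟨z, hz⟩ : ∃ z, z = pairBits (List.replicate (2 ^ x.length) true) x := ⟨_, rfl⟩
  have hnn : n < 2 ^ n := Nat.lt_two_pow_self
  have hzl : z.length ≤ Z.eval (2 ^ n) := by
    rw [hz, Pool.Agent.H620R2.Gauge.length_pairBits, List.length_replicate, hZ, ← hn]
    simp only [Polynomial.eval_add, Polynomial.eval_mul, Polynomial.eval_X,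
      Polynomial.eval_ofNat, Polynomial.eval_one]
    omega
  have hul : ∀ s : List Bool, s.length ≤ B.eval z.length + 3 →
      (pairBits s z).length ≤ U.eval (2 ^ n) := by
    intro s hs
    rw [Pool.Agent.H620R2.Gauge.length_pairBits, hU]
    simp only [Polynomial.eval_add, Polynomial.eval_mul, Polynomial.eval_comp,
      Polynomial.eval_ofNat, Polynomial.eval_one]
    have := eval_mono B hzl
    omega
  have hpe : p.eval (2 ^ n) = 2 * (2 * 2 ^ n) ^ c * M.p.eval (U.eval (2 ^ n)) + 1 +
      qb.eval (U.eval (2 ^ n)) + 2 ^ n := by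
    rw [hp]
    simp only [Polynomial.eval_add, Polynomial.eval_mul, Polynomial.eval_comp,
      Polynomial.eval_ofNat, Polynomial.eval_one, Polynomial.eval_pow, Polynomial.eval_X]
  have hTe : T = 2 ^ h n * p.eval (2 ^ n) := by rw [hT, rd, hn]
  have hTp : p.eval (2 ^ n) ≤ T := by
    rw [hTe]
    exact Nat.le_mul_of_pos_left _ (Nat.two_pow_pos _)
  have hzz : zz (pairBits (List.replicate T true) x) = z := by
    rw [hz]
    apply zz_eq
    rw [← hn]
    omega
  -- the questions of the algorithm are short
  have hMT : ∀ s : List Bool, s.length ≤ B.eval z.length + 3 →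
      M.run (upTo T A) (pairBits s z) (M.p.eval (U.eval (2 ^ n))) [] =
        some (F (pairBits s z)) := by
    intro s hs
    obtain ⟨Q, _, hQl, hQA⟩ := hqb A (pairBits s z)
    have h1 : M.out (upTo T A) (pairBits s z) = M.out A (pairBits s z) := by
      apply hQA
      intro q hq
      have h2 := (hQl q hq).trans (eval_mono qb (hul s hs))
      unfold upTo
      rw [decide_eq_true (by omega), Bool.true_and]
    rw [hM] at h1
    exact run_mono M (eval_mono M.p (hul s hs)) h1
  -- the truncated algorithm
  obtain ⟨F', hF'⟩ : ∃ F' : List Bool → List Bool,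
      F' = fun u => (F u).take (B.eval (unpair u).2.length + 3) := ⟨_, rfl⟩
  have hFz : ∀ s, F' (pairBits s z) = (F (pairBits s z)).take (B.eval z.length + 3) := by
    intro s
    rw [hF']
    simp only [unpair_pairBits]
  have hlen : ∀ i, (cf F' z i).length ≤ B.eval z.length + 3 := by
    intro i
    induction i with
    | zero => rw [cf]; simp
    | succ i ih =>
      rw [cf]
      split_ifs
      · rw [hFz, List.length_take]
        exact min_le_left _ _
      · exact ih
  have hd : Dec F (g x.length) z (x ∈ L) := by
    rw [hz]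
    exact hx x
  have hgz : g x.length ≤ B.eval z.length := by
    refine (hB x.length).trans (eval_mono B ?_)
    rw [hz, Pool.Agent.H620R2.Gauge.length_pairBits, List.length_replicate]
    omega
  have hd' : Dec F' (g x.length) z (x ∈ L) :=
    trunc_dec hd (K := B.eval z.length + 3) (by omega) hFz
  obtain ⟨out, hy1, hy2⟩ := cf_end hd'
  have hrun := sim_all M B (upTo T A) F F' (pairBits (List.replicate T true) x) z hzz
    (M.p.eval (U.eval (2 ^ n))) hFz hMT hlen (2 ^ (g x.length + 1)) out (hy2 _ le_rfl) T (by
      have h1 : 2 ^ (g x.length + 1) ≤ 2 ^ h n * (2 * (2 * 2 ^ n) ^ c) := by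
        calc 2 ^ (g x.length + 1) ≤ 2 ^ (h n + (c * (n + 1) + 1)) := by
              apply Nat.pow_le_pow_right (by norm_num)
              have := hc n
              rw [← hn]
              omega
          _ = 2 ^ h n * (2 * (2 * 2 ^ n) ^ c) := by
              rw [pow_add 2 (h n), pow_succ 2 (c * (n + 1)), Nat.mul_comm c, pow_mul, pow_succ]
              ring
      have h2 : 2 ^ (g x.length + 1) * M.p.eval (U.eval (2 ^ n)) ≤
          2 ^ h n * (2 * (2 * 2 ^ n) ^ c * M.p.eval (U.eval (2 ^ n))) := by
        calc _ ≤ 2 ^ h n * (2 * (2 * 2 ^ n) ^ c) * M.p.eval (U.eval (2 ^ n)) :=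
              Nat.mul_le_mul_right _ h1
          _ = _ := by ring
      have h3 : T = 2 ^ h n * (2 * (2 * 2 ^ n) ^ c * M.p.eval (U.eval (2 ^ n))) +
          2 ^ h n * (1 + qb.eval (U.eval (2 ^ n)) + 2 ^ n) := by
        rw [hTe, hpe]
        ring
      have h4 : 1 ≤ 2 ^ h n * (1 + qb.eval (U.eval (2 ^ n)) + 2 ^ n) :=
        Nat.mul_pos (Nat.two_pow_pos _) (by omega)
      omega)
  rw [hrun, Option.some.injEq]
  exact hy1

/-- deterministic time is contained in nondeterministic time -/
theorem InTimeX.nt {h : ℕ → ℕ} {A : Oracle} {L : Set (List Bool)} (hL : InTimeX h A L) :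
    InNTimeX h A L := by
  obtain ⟨M, p, hx⟩ := hL
  have hP : Poly (fun y : List Bool => pairBits (pairBits (unpair (unpair y).1).1
      (unpair (unpair (unpair (unpair y).1).2).2).1) (unpair y).2) := by
    have h1 : Poly (fun y : List Bool => unpair (unpair y).1) :=
      poly_unpair.comp (Poly.fst poly_unpair)
    have h2 : Poly (fun y : List Bool => unpair (unpair (unpair y).1).2) :=
      poly_unpair.comp (Poly.snd h1)
    exact poly_pairBits (poly_pairBits (Poly.fst h1) (Poly.fst (poly_unpair.comp (Poly.snd h2))))
      (Poly.snd poly_unpair)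
  obtain ⟨M', hM'⟩ : ∃ M' : Alg, ∀ y, M'.D y = M.D (pairBits (pairBits (unpair (unpair y).1).1
      (unpair (unpair (unpair (unpair y).1).2).2).1) (unpair y).2) :=
    ⟨⟨_, polyTime_of_poly_list ((poly_of_polyTime M.poly).comp hP), 0⟩, fun y => rfl⟩
  refine ⟨M', p, fun _ => [], fun n => Nat.zero_le _, fun x => ?_⟩
  have key : ∀ (A' : Oracle) (u w a : List Bool) (n : ℕ) (c : List Bool),
      M'.run A' (pairBits u (pairBits w (pairBits x a))) n c = M.run A' (pairBits u x) n c := by
    intro A' u w a n
    induction n with
    | zero => intro c; rfl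
    | succ n ih =>
      intro c
      rw [A2.run_succ, A2.run_succ, hM']
      simp only [unpair_pairBits, ih]
  simp only [key]
  rw [hx x]
  constructor
  · exact fun h => ⟨[], h⟩
  · rintro ⟨_, h⟩
    exact h

end Pool.Agent.TH93.MM
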