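import Pool.Agent.TH93.MM.Law
import Pool.Agent.TH93.MM.CombN
import Pool.Agent.TH93.MM.SimT

/-!
# The law for the number of memory bits: nondeterministic time
-/

set_option autoImplicit false

namespace Pool.Agent.TH93.MM

open Pool.Agent.NPC Pool.Agent.H620R2.Gauge Finset H568R2 Pool.Agent.H676
open Pool.Agent.TH93.GL MeasureTheory Filter

/-- the lower bound for nondeterministic time -/
theorem low_nt {g : ℕ → ℕ} (hg : NiceT (fun n => 2 ^ n) g) :
    ∀ᵐ A ∂ranO, ∀ h : ℕ → ℕ, InNTimeX h A (parM (fun n => g n - 2) A) →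
      ∃ c, ∀ n, g n ≤ h n + c * (n + 1) := by
  have hcp : Countable (Polynomial ℕ) := countable_polyN
  obtain ⟨R, hR⟩ := nice_bound hg
  have hk : ∀ p : Polynomial ℕ, ∃ c, 1 ≤ c ∧ ∀ n m, c * (n + 1) ≤ m →
      (PN p).eval (2 ^ n) ≤ 2 ^ m := fun p => exists_const _
  choose K hK1 hK using hk
  have h1 : ∀ᵐ A ∂ranO, ∀ θ : Alg × Polynomial ℕ, ∃ n₀ : ℕ, ∀ n ≥ n₀, ∀ e ≤ g n,
      e + K θ.2 * (n + 1) ≤ g n - 2 →
        A ∉ EvN θ.1 n (2 ^ e * θ.2.eval (2 ^ n)) (g n - 2) := by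
    refine ae_all_iff.2 fun θ => ?_
    refine ae_bc (fun n e => EvN θ.1 n (2 ^ e * θ.2.eval (2 ^ n)) (g n - 2))
      (fun n e => e + K θ.2 * (n + 1) ≤ g n - 2) g R hR fun n e hne => ?_
    have h2 : 2 ^ e * (PN θ.2).eval (2 ^ n) ≤ 2 ^ (g n - 2) := by
      calc 2 ^ e * (PN θ.2).eval (2 ^ n) ≤ 2 ^ e * 2 ^ (g n - 2 - e) :=
            Nat.mul_le_mul_left _ (hK θ.2 n _ (by omega))
        _ = _ := by rw [← pow_add]; congr 1; omega
    obtain ⟨N, P, h3, h4⟩ := evN_prefix θ.1 θ.2 n e (g n - 2) h2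
    refine ⟨N, P, h3, fun D => ?_⟩
    refine le_trans (le_of_eq ?_) h4
    congr 1
    funext a
    congr
  filter_upwards [h1] with A hA h hL
  obtain ⟨M, p, a, ha, hx⟩ := hL
  obtain ⟨n₀, hn₀⟩ := hA (M, p)
  have hn₀' : ∀ n ≥ n₀, ∀ e ≤ g n, e + K p * (n + 1) ≤ g n - 2 →
    A ∉ EvN M n (2 ^ e * p.eval (2 ^ n)) (g n - 2) := hn₀
  refine ⟨K p + 2 + ∑ i ∈ Finset.range n₀, g i, fun n => ?_⟩
  by_cases hn : n < n₀
  · have h1 : g n ≤ ∑ i ∈ Finset.range n₀, g i :=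
      Finset.single_le_sum (f := g) (fun i _ => Nat.zero_le _) (Finset.mem_range.2 hn)
    have h2 : (∑ i ∈ Finset.range n₀, g i) ≤
        (K p + 2 + ∑ i ∈ Finset.range n₀, g i) * (n + 1) := by
      calc (∑ i ∈ Finset.range n₀, g i) ≤ (K p + 2 + ∑ i ∈ Finset.range n₀, g i) * 1 := by
            omega
        _ ≤ _ := Nat.mul_le_mul_left _ (by omega)
    omega
  · have hev : A ∈ EvN M n (2 ^ h n * p.eval (2 ^ n)) (g n - 2) := by
      refine ⟨a n, ha n, fun x hxn => ?_⟩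
      have := hx x
      rw [hxn] at this
      unfold parM at this
      rw [Set.mem_ofPred_eq] at this
      simp only [hxn] at this
      exact this
    have hcon : ¬ (h n + K p * (n + 1) ≤ g n - 2) := fun h3 =>
      hn₀' n (by omega) (h n) (by omega) h3 hev
    have h6 : K p * (n + 1) + 2 * (n + 1) ≤
        (K p + 2 + ∑ i ∈ Finset.range n₀, g i) * (n + 1) := by
      rw [← Nat.add_mul]
      exact Nat.mul_le_mul_right _ (by omega)
    omega

/-- **The law for the number of memory bits, nondeterministic time.** -/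
theorem law_nt : ∀ᵐ A ∂ranO, ∀ g h : ℕ → ℕ, NiceT (fun n => 2 ^ n) g → List.TFAE [
      ∀ L, InMem (fun n => 2 ^ n) g A L → InTimeX h A L,
      ∀ L, InMem (fun n => 2 ^ n) g A L → InNTimeX h A L,
      ∃ c, ∀ n, g n ≤ h n + c * (n + 1)] := by
  have key : ∀ᵐ A ∂ranO, ∀ g, NiceT (fun n => 2 ^ n) g → ∀ h : ℕ → ℕ,
      InNTimeX h A (parM (fun n => g n - 2) A) → ∃ c, ∀ n, g n ≤ h n + c * (n + 1) :=
    (ae_ball_iff (countable_niceT _)).2 fun g hg => low_nt hg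
  filter_upwards [key] with A hA g h hg
  tfae_have 1 → 2 := fun h1 L hL => (h1 L hL).nt
  tfae_have 2 → 3 := fun h2 => hA g hg h (h2 _ (parM_mem hg A))
  tfae_have 3 → 1 := by
    rintro ⟨c, hc⟩ L hL
    exact hL.timeX hg hc
  tfae_finish

end Pool.Agent.TH93.MM
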