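import Pool.Agent.TH93.MM.Defs
import Pool.Agent.TH93.GL.Up
import Pool.Agent.H620R2.Gauge.P

/-!
# The test language is decided with few bits of memory
-/

set_option autoImplicit false

namespace Pool.Agent.TH93.MM

open Pool.Agent.NPC Pool.Agent.H620R2.Gauge Pool.Agent.H622R2 Pool.Agent.TH93.GL
open Pool.Agent.H620R2.Gauge.PTask

/-- the test language: the parity of the bits at the strings `x w` with `|w| = m(|x|)` -/
def parM (m : ℕ → ℕ) (A : Oracle) : Set (List Bool) :=
  {x | Odd ((Finset.range (2 ^ m x.length)).filter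
    (fun j => A (x ++ bitsOf (m x.length) j) = true)).card}

/-- the counter -/
def cnt (F : List Bool → List Bool) (u : List Bool) : List Bool :=
  if (unpair u).1 = [] then (List.replicate ((F (unpair u).2).length - 2) true).map (fun b => !b)
  else (unpair u).1.tail

/-- the question -/
def QP (F : List Bool → List Bool) (u : List Bool) : List (List Bool) :=
  [(unpair (unpair u).2).2 ++ cnt F u]

/-- the new parity -/
def nb (u : List Bool) (l : List Bool) : Bool := ((unpair u).1.headD false) ^^ (l.headD false)

/-- the result of the step -/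
def HP (F : List Bool → List Bool) (p : List Bool × List Bool) : List Bool :=
  if (cnt F p.1).all (fun b => b) = true then [true, nb p.1 p.2]
  else false :: nb p.1 p.2 :: inc (cnt F p.1)

theorem poly_headD {α : Type} [TEnc α] {l : α → List Bool} (hl : Poly l) :
    Poly (fun a => (l a).headD false) :=
  (Poly.getD hl (NPC.Poly.const 0) (NPC.Poly.const false)).congr fun a => by
    cases l a <;> rfl

theorem poly_cnt {F : List Bool → List Bool} (hF : Poly F) : Poly (cnt F) := by
  have h1 : Poly (fun u : List Bool => (unpair u).1) := Poly.fst poly_unpair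
  have h2 : Poly (fun u : List Bool => F (unpair u).2) := hF.comp (Poly.snd poly_unpair)
  unfold cnt
  exact Poly.ite (Poly.decide_eq h1 (NPC.Poly.const _))
    (NPC.Poly.map (F := fun _ b => !b)
      (V7.poly_replicate (UPoly.of_le (Poly.sub (Poly.length h2) (NPC.Poly.const 2))
      (UPoly.length h2) fun _ => Nat.sub_le _ _)) (Poly.not (Poly.snd Poly.id))) (Poly.tail h1)

theorem poly_QP {F : List Bool → List Bool} (hF : Poly F) : Poly (QP F) := by
  unfold QP
  exact Poly.cons (Poly.append (Poly.snd (poly_unpair.comp (Poly.snd poly_unpair)))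
    (poly_cnt hF)) (NPC.Poly.const [])

theorem poly_HP {F : List Bool → List Bool} (hF : Poly F) : Poly (HP F) := by
  have h1 : Poly (fun p : List Bool × List Bool => cnt F p.1) :=
    (poly_cnt hF).comp (Poly.fst Poly.id)
  have h2 : Poly (fun p : List Bool × List Bool => nb p.1 p.2) := by
    unfold nb
    exact Poly.xor (poly_headD (Poly.fst (poly_unpair.comp (Poly.fst Poly.id))))
      (poly_headD (Poly.snd Poly.id))
  unfold HP
  refine Poly.ite ?_ (Poly.cons (NPC.Poly.const true) (Poly.cons h2 (NPC.Poly.const [])))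
    (Poly.cons (NPC.Poly.const false) (Poly.cons h2 (poly_inc.comp h1)))
  refine (Poly.all (l := fun p : List Bool × List Bool => cnt F p.1)
    (p := fun _ (b : Bool) => b) h1 (Poly.snd Poly.id)).congr fun q => Bool.decide_eq_true.symm

/-- the parity of the first `j` bits -/
def pj (m : ℕ) (A : Oracle) (x : List Bool) (j : ℕ) : Bool :=
  decide (Odd ((Finset.range j).filter (fun i => A (x ++ bitsOf m i) = true)).card)

theorem pj_succ (m : ℕ) (A : Oracle) (x : List Bool) (j : ℕ) :
    pj m A x (j + 1) = (pj m A x j ^^ A (x ++ bitsOf m j)) := by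
  unfold pj
  rw [Finset.range_add_one, Finset.filter_insert]
  cases h : A (x ++ bitsOf m j)
  · simp
  · rw [if_pos rfl, Finset.card_insert_of_notMem (by simp)]
    by_cases ho : Odd ((Finset.range j).filter (fun i => A (x ++ bitsOf m i) = true)).card
    · have h2 : ¬ Odd (((Finset.range j).filter (fun i => A (x ++ bitsOf m i) = true)).card + 1) := by
        rw [Nat.not_odd_iff_even]
        exact ho.add_one
      simp [ho, h2]
    · have h2 : Odd (((Finset.range j).filter (fun i => A (x ++ bitsOf m i) = true)).card + 1) :=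
        (Nat.not_odd_iff_even.1 ho).add_one
      simp [ho, h2]

theorem all_bitsOf : ∀ (m j : ℕ), j < 2 ^ m → ((bitsOf m j).all (fun b => b) = true ↔
    j + 1 = 2 ^ m)
  | 0, j => by
      intro h
      simp only [pow_zero] at h ⊢
      simp [bitsOf]
      omega
  | m + 1, j => by
      intro h
      have ih := all_bitsOf m (j / 2) (by rw [pow_succ] at h; omega)
      rw [bitsOf, List.all_cons, Bool.and_eq_true, ih, pow_succ]
      simp only [beq_iff_eq]
      omega

theorem bits_zero (m : ℕ) : List.replicate m false = bitsOf m 0 :=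
  ((bitsOf_eq_zero m 0).2 (Nat.zero_mod _)).symm

section
variable {A : Oracle} {G : List Bool → List Bool} {z x : List Bool} {m : ℕ}

/-- one step -/
theorem step_eq (hz : (unpair z).2 = x) (hG : (G z).length - 2 = m) (b : Bool) (j : ℕ)
    (hj : j < 2 ^ m) {s : List Bool} (hs : (s = [] ∧ j = 0 ∧ b = false) ∨ s = b :: bitsOf m j) :
    HP G (pairBits s z, (QP G (pairBits s z)).map A) =
      if j + 1 = 2 ^ m then [true, b ^^ A (x ++ bitsOf m j)]
      else false :: (b ^^ A (x ++ bitsOf m j)) :: bitsOf m (j + 1) := by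
  have hc : cnt G (pairBits s z) = bitsOf m j := by
    unfold cnt
    rw [unpair_pairBits]
    rcases hs with ⟨h1, h2, _⟩ | h1
    · rw [if_pos h1, h2, List.map_replicate, Bool.not_true]
      simp only
      rw [hG, bits_zero]
    · rw [h1, if_neg (by simp)]
      rfl
  have hn : nb (pairBits s z) ((QP G (pairBits s z)).map A) = (b ^^ A (x ++ bitsOf m j)) := by
    unfold nb QP
    rw [hc, unpair_pairBits]
    simp only [hz, List.map_cons, List.map_nil, List.headD_cons]
    rcases hs with ⟨h1, _, h3⟩ | h1
    · rw [h1, h3]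
      rfl
    · rw [h1]
      rfl
  unfold HP
  simp only
  rw [hc, hn, inc_bitsOf]
  by_cases h : j + 1 = 2 ^ m
  · rw [if_pos ((all_bitsOf m j hj).2 h), if_pos h]
  · rw [if_neg (fun h' => h ((all_bitsOf m j hj).1 h')), if_neg h]

end

/-- The test language needs two bits more than the counter. -/
theorem parM_mem {τ g : ℕ → ℕ} (hg : NiceT τ g) (A : Oracle) :
    InMem τ g A (parM (fun n => g n - 2) A) := by
  obtain ⟨G, hG, hGx⟩ := hg
  have hP := poly_of_polyTime hG
  refine ⟨_, IsFP.tt (poly_QP hP) (poly_HP hP), fun x => ?_⟩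
  obtain ⟨z, hz⟩ : ∃ z, z = pairBits (List.replicate (τ x.length) true) x := ⟨_, rfl⟩
  rw [← hz]
  obtain ⟨m, hm⟩ : ∃ m, m = g x.length - 2 := ⟨_, rfl⟩
  have hz2 : (unpair z).2 = x := by rw [hz, unpair_pairBits]
  have hG2 : (G z).length - 2 = m := by rw [hz, hGx, List.length_replicate, hm]
  have hpos : 0 < 2 ^ m := Nat.two_pow_pos m
  have hone : ∀ j, 0 < j → j < 2 ^ m → 1 ≤ m := by
    intro j h1 h2
    by_contra h
    have : m = 0 := by omega
    rw [this] at h2
    omega
  have p0 : pj m A x 0 = false := by simp [pj]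
  constructor
  · intro s hs
    have key : (s = [] ∨ ∃ j, 0 < j ∧ j < 2 ^ m ∧ s = pj m A x j :: bitsOf m j) := by
      induction hs with
      | start => exact Or.inl rfl
      | step _ h ih =>
        rename_i s s' _
        obtain ⟨j, hj, hjs⟩ : ∃ j, j < 2 ^ m ∧ ((s = [] ∧ j = 0 ∧ pj m A x j = false) ∨
            s = pj m A x j :: bitsOf m j) := by
          rcases ih with h1 | ⟨j, h1, h2, h3⟩
          · exact ⟨0, hpos, Or.inl ⟨h1, rfl, p0⟩⟩
          · exact ⟨j, h2, Or.inr h3⟩
        have h' : HP G (pairBits s z, (QP G (pairBits s z)).map A) = false :: s' := h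
        rw [step_eq hz2 hG2 (pj m A x j) j hj hjs] at h'
        by_cases he : j + 1 = 2 ^ m
        · rw [if_pos he] at h'
          simp at h'
        · rw [if_neg he, ← pj_succ, List.cons.injEq] at h'
          exact Or.inr ⟨j + 1, by omega, by omega, h'.2.symm⟩
    rcases key with h | ⟨j, h1, h2, h⟩
    · rw [h]
      exact Nat.zero_le _
    · have := hone j h1 h2
      rw [h, List.length_cons, len_bitsOf]
      omega
  · have key : ∀ j < 2 ^ m, ∃ s, Reach (fun u => HP G (u, (QP G u).map A)) z s ∧
        ((s = [] ∧ j = 0 ∧ pj m A x j = false) ∨ s = pj m A x j :: bitsOf m j) := by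
      intro j
      induction j with
      | zero => exact fun _ => ⟨[], Reach.start, Or.inl ⟨rfl, rfl, p0⟩⟩
      | succ j ih =>
        intro hj
        obtain ⟨s, h1, h2⟩ := ih (by omega)
        refine ⟨_, Reach.step (s' := pj m A x (j + 1) :: bitsOf m (j + 1)) h1 ?_, Or.inr rfl⟩
        have h3 := step_eq (A := A) hz2 hG2 (pj m A x j) j (by omega) h2
        rw [if_neg (by omega), ← pj_succ] at h3
        exact h3
    obtain ⟨s, h1, h2⟩ := key (2 ^ m - 1) (by omega)
    refine ⟨s, [pj m A x (2 ^ m)], h1, ?_, ?_⟩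
    · have h3 := step_eq (A := A) hz2 hG2 (pj m A x (2 ^ m - 1)) (2 ^ m - 1) (by omega) h2
      rw [if_pos (by omega), ← pj_succ, Nat.sub_add_cancel (by omega)] at h3
      exact h3
    · unfold parM pj
      rw [Set.mem_ofPred_eq]
      simp only
      rw [← hm]
      simp

end Pool.Agent.TH93.MM
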